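import Mathlib.Algebra.Polynomial.FieldDivision
import Mathlib.Algebra.Polynomial.Roots
import Mathlib.RingTheory.PrincipalIdealDomain
import Mathlib.Tactic

/-! Two cubics of the family meet in at most seven points. -/

namespace Pool.Agent.MP_419040_co.Fan

open Polynomial

variable {F : Type} [Field F]

theorem dvd_X_cases {P : F[X]} (h : P ∣ X) : ∃ c, c ≠ 0 ∧ (P = C c ∨ P = C c * X) := by
  obtain ⟨Q, hQ⟩ := h
  rcases irreducible_X.isUnit_or_isUnit hQ with u | u
  · obtain ⟨c, hc, rfl⟩ := isUnit_iff.1 u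
    exact ⟨c, hc.ne_zero, Or.inl rfl⟩
  · obtain ⟨c, hc, rfl⟩ := isUnit_iff.1 u
    refine ⟨c⁻¹, inv_ne_zero hc.ne_zero, Or.inr ?_⟩
    rw [hQ, mul_comm P, ← mul_assoc, ← C_mul, inv_mul_cancel₀ hc.ne_zero, C_1, one_mul]

theorem cubic_zero {a b c d e : F} (h : C a + C b * X + C c * X ^ 2 + C d * X ^ 3 + C e * X ^ 4 = 0) :
    a = 0 ∧ b = 0 ∧ c = 0 ∧ d = 0 := by
  have h0 := congrArg (fun p => coeff p 0) h
  have h1 := congrArg (fun p => coeff p 1) h
  have h2 := congrArg (fun p => coeff p 2) h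
  have h3 := congrArg (fun p => coeff p 3) h
  simp [coeff_X, coeff_C, coeff_X_pow] at h0 h1 h2 h3
  exact ⟨h0, h1, h2, h3⟩

theorem irr {A B A' B' κ : F} (h : A * B ≠ A' * B') (hA : A ≠ 0) (hA' : A' ≠ 0) (hB' : B' ≠ 0)
    {P Q : F[X]} (hQ : Q ≠ 0) :
    C B' * X * P ^ 2 + (C A + C B * X ^ 2 - C κ * X) * P * Q + C A' * X * Q ^ 2 ≠ 0 := by
  classical
  intro e
  obtain ⟨P', Q', h1, h2, h3⟩ := extract_gcd P Q
  have g0 : gcd P Q ≠ 0 := fun k => hQ (by rw [h2, k, zero_mul])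
  generalize gcd P Q = g at h1 h2 g0
  have co : IsCoprime P' Q' := (gcd_isUnit_iff _ _).1 h3
  have e' : C B' * X * P' ^ 2 + (C A + C B * X ^ 2 - C κ * X) * P' * Q' + C A' * X * Q' ^ 2 = 0 := by
    refine mul_left_cancel₀ (pow_ne_zero 2 g0) ?_
    rw [h1, h2] at e
    linear_combination e
  have d1 : P' ∣ X := by
    refine (isUnit_C.2 hA'.isUnit).dvd_mul_left.1 ((co.pow_right (n := 2)).dvd_of_dvd_mul_right
      ⟨-(C B' * X * P' + (C A + C B * X ^ 2 - C κ * X) * Q'), ?_⟩)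
    linear_combination e'
  have d2 : Q' ∣ X := by
    refine (isUnit_C.2 hB'.isUnit).dvd_mul_left.1 ((co.symm.pow_right (n := 2)).dvd_of_dvd_mul_right
      ⟨-((C A + C B * X ^ 2 - C κ * X) * P' + C A' * X * Q'), ?_⟩)
    linear_combination e'
  obtain ⟨c, hc, p⟩ := dvd_X_cases d1
  obtain ⟨d, hd, q⟩ := dvd_X_cases d2
  have cd := mul_ne_zero hc hd
  rcases p with rfl | rfl <;> rcases q with rfl | rfl
  · have := cubic_zero (a := A * (c * d)) (b := B' * c ^ 2 - κ * (c * d) + A' * d ^ 2)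
      (c := B * (c * d)) (d := 0) (e := 0) (by simp only [map_mul, map_add, map_sub, map_pow, C_0]
                                               linear_combination e')
    exact mul_ne_zero hA cd this.1
  · have := cubic_zero (a := 0) (b := B' * c ^ 2 + A * (c * d)) (c := -(κ * (c * d)))
      (d := B * (c * d) + A' * d ^ 2) (e := 0)
      (by simp only [map_mul, map_add, map_neg, map_pow, C_0]; linear_combination e')
    refine h (mul_left_cancel₀ (pow_ne_zero 2 cd) ?_)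
    linear_combination (B * (c * d)) * this.2.1 - (B' * c ^ 2) * this.2.2.2
  · have := cubic_zero (a := 0) (b := A * (c * d) + A' * d ^ 2) (c := -(κ * (c * d)))
      (d := B' * c ^ 2 + B * (c * d)) (e := 0)
      (by simp only [map_mul, map_add, map_neg, map_pow, C_0]; linear_combination e')
    refine h (mul_left_cancel₀ (pow_ne_zero 2 cd) ?_)
    linear_combination (B * (c * d)) * this.2.1 - (A' * d ^ 2) * this.2.2.2
  · have := cubic_zero (a := 0) (b := 0) (c := A * (c * d))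
      (d := B' * c ^ 2 - κ * (c * d) + A' * d ^ 2) (e := B * (c * d))
      (by simp only [map_mul, map_add, map_sub, map_pow, C_0]; linear_combination e')
    exact mul_ne_zero hA cd this.2.2.1

theorem alg {A B A' B' κ E D E' D' μ h h' : F} (hAB : A * B ≠ A' * B') (hA : A ≠ 0) (hA' : A' ≠ 0)
    (hB' : B' ≠ 0) (hD' : D' ≠ 0) (hh : h = 0 → h' = 0 ∧ (B' * E' ≠ A' * D' ∨ B' * μ ≠ κ * D'))
    (S : Finset F) (hS : ∀ u ∈ S, ∃ v, B' * u * v ^ 2 + (A + B * u ^ 2 - κ * u) * v + A' * u = 0 ∧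
      D' * (u - h) * (v - h') ^ 2 + (E + D * (u - h) ^ 2 - μ * (u - h)) * (v - h') +
        E' * (u - h) = 0) : S.card ≤ 7 := by
  classical
  obtain ⟨a2, ha2⟩ : ∃ p : F[X], p = C B' * X := ⟨_, rfl⟩
  obtain ⟨a1, ha1⟩ : ∃ p : F[X], p = C A + C B * X ^ 2 - C κ * X := ⟨_, rfl⟩
  obtain ⟨a0, ha0⟩ : ∃ p : F[X], p = C A' * X := ⟨_, rfl⟩
  obtain ⟨b2, hb2⟩ : ∃ p : F[X], p = C D' * (X - C h) := ⟨_, rfl⟩
  obtain ⟨b1, hb1⟩ : ∃ p : F[X], p = C E + C D * (X - C h) ^ 2 - C μ * (X - C h) -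
    C (2 * h' * D') * (X - C h) := ⟨_, rfl⟩
  obtain ⟨b0, hb0⟩ : ∃ p : F[X], p = C (E' + D' * h' ^ 2 + h' * μ) * (X - C h) - C (h' * E) -
    C (h' * D) * (X - C h) ^ 2 := ⟨_, rfl⟩
  obtain ⟨R, hR⟩ : ∃ p : F[X], p = (a2 * b0 - a0 * b2) ^ 2 -
    (a2 * b1 - a1 * b2) * (a1 * b0 - a0 * b1) := ⟨_, rfl⟩
  have R0 : R ≠ 0 := by
    intro r
    by_cases hL : a2 * b1 - a1 * b2 = 0
    · have hM : a2 * b0 - a0 * b2 = 0 := by
        rw [hR, hL, zero_mul, sub_zero] at r
        exact pow_eq_zero_iff two_ne_zero |>.1 r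
      have z := congrArg (eval 0) hL
      simp [ha2, ha1, hb2, hA, hD'] at z
      obtain ⟨rfl, k⟩ := hh z
      subst z
      have l := cubic_zero (a := 0) (b := B' * E - A * D') (c := κ * D' - B' * μ)
        (d := B' * D - B * D') (e := 0) (by
          rw [ha2, ha1, hb2, hb1] at hL
          simp only [map_mul, map_sub, C_0] at hL ⊢
          linear_combination hL)
      have m := cubic_zero (a := 0) (b := 0) (c := B' * E' - A' * D') (d := 0) (e := 0) (by
        rw [ha2, ha0, hb2, hb0] at hM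
        simp only [map_mul, map_sub, map_add, map_pow, C_0] at hM ⊢
        linear_combination hM)
      rcases k with k | k
      · exact k (sub_eq_zero.1 m.2.2.1)
      · exact k (sub_eq_zero.1 l.2.2.1).symm
    · refine irr (κ := κ) hAB hA hA' hB' (P := -(a2 * b0 - a0 * b2)) hL ?_
      rw [← ha2, ← ha1, ← ha0]
      linear_combination a2 * r - a2 * hR
  have dg : R.natDegree ≤ 7 := by
    rw [hR, ha2, ha1, ha0, hb2, hb1, hb0]
    compute_degree
  refine le_trans ?_ ((card_roots' R).trans dg)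
  refine le_trans (Finset.card_le_card fun u hu => ?_) (Multiset.toFinset_card_le R.roots)
  obtain ⟨v, e1, e2⟩ := hS u hu
  rw [Multiset.mem_toFinset, mem_roots R0, IsRoot.def]
  have f1 : a2.eval u * v ^ 2 + a1.eval u * v + a0.eval u = 0 := by
    simp only [ha2, ha1, ha0, eval_add, eval_sub, eval_mul, eval_pow, eval_C, eval_X]
    linear_combination e1
  have f2 : b2.eval u * v ^ 2 + b1.eval u * v + b0.eval u = 0 := by
    simp only [hb2, hb1, hb0, eval_add, eval_sub, eval_mul, eval_pow, eval_C, eval_X]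
    linear_combination e2
  simp only [hR, eval_sub, eval_mul, eval_pow]
  generalize a2.eval u = x2, a1.eval u = x1, a0.eval u = x0, b2.eval u = y2, b1.eval u = y1,
    b0.eval u = y0 at f1 f2 ⊢
  have g1 : x2 * y0 - x0 * y2 = -((x2 * y1 - x1 * y2) * v) := by linear_combination x2 * f2 - y2 * f1
  have g2 : x1 * y0 - x0 * y1 = (x2 * y1 - x1 * y2) * v ^ 2 := by
    linear_combination x1 * f2 - y1 * f1
  rw [g1, g2]
  ring

end Pool.Agent.MP_419040_co.Fan
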