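import Pool.Agent.MP_419040_co.Defs

namespace Pool.Agent.MP_419040_co

/-- The graph `H_t`: four vertices `a = inl 0`, `b = inl 1`, `e = inl 2`, `w = inl 3` and, for
every `i < t`, three vertices `c i = inr (i, 0)`, `p i = inr (i, 1)`, `r i = inr (i, 2)`, with the
edges `a e`, `b e`, `w (c i)`, `(c i) (p i)`, `(c i) (r i)`, `a (p i)`, `b (r i)`. -/
def fan (t : ℕ) : SimpleGraph (Fin 4 ⊕ Fin t × Fin 3) :=
  SimpleGraph.fromRel fun x y =>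
    (x = Sum.inl 0 ∧ y = Sum.inl 2) ∨ (x = Sum.inl 1 ∧ y = Sum.inl 2) ∨
    ∃ i, (x = Sum.inl 3 ∧ y = Sum.inr (i, 0)) ∨ (x = Sum.inr (i, 0) ∧ y = Sum.inr (i, 1)) ∨
      (x = Sum.inr (i, 0) ∧ y = Sum.inr (i, 2)) ∨ (x = Sum.inl 0 ∧ y = Sum.inr (i, 1)) ∨
      (x = Sum.inl 1 ∧ y = Sum.inr (i, 2))

end Pool.Agent.MP_419040_co
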