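import Mathlib.Combinatorics.SimpleGraph.Finite
import Mathlib.Combinatorics.Hall.Basic
import Mathlib.Algebra.Order.Chebyshev
import Mathlib.Tactic
import Pool.Agent.MP_419040_co.fan.Defs

/-! Statements for the upper bound on the extremal number of the graphs `fan t`. -/

namespace Pool.Agent.MP_419040_co.Fan

open Finset

variable {V : Type}

/-- A copy of `fan t`, written out: `r 0 = a`, `r 1 = b`, `r 2 = e`, `r 3 = w`,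
`s (i, 0) = c i`, `s (i, 1) = p i`, `s (i, 2) = r i`. -/
def Has (G : SimpleGraph V) (t : ℕ) : Prop :=
  ∃ (r : Fin 4 → V) (s : Fin t × Fin 3 → V), Function.Injective (Sum.elim r s) ∧
    G.Adj (r 0) (r 2) ∧ G.Adj (r 1) (r 2) ∧ ∀ i, G.Adj (r 3) (s (i, 0)) ∧
      G.Adj (s (i, 0)) (s (i, 1)) ∧ G.Adj (s (i, 0)) (s (i, 2)) ∧ G.Adj (r 0) (s (i, 1)) ∧
      G.Adj (r 1) (s (i, 2))

variable [Fintype V] [DecidableEq V] (G : SimpleGraph V) [DecidableRel G.Adj]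

/-- The number of common neighbours. -/
def cod (u v : V) : ℕ := #(univ.filter fun z => G.Adj u z ∧ G.Adj v z)

/-- Good walks `w c p a e`, as `(w, c, p, a, e)`. -/
def P5 (L : ℕ) : Finset (V × V × V × V × V) := univ.filter fun x =>
  G.Adj x.1 x.2.1 ∧ G.Adj x.2.1 x.2.2.1 ∧ G.Adj x.2.2.1 x.2.2.2.1 ∧ G.Adj x.2.2.2.1 x.2.2.2.2 ∧
    cod G x.1 x.2.2.1 < L ∧ cod G x.2.1 x.2.2.2.1 < L ∧ cod G x.2.2.1 x.2.2.2.2 < L ∧
    x.1 ≠ x.2.2.2.1 ∧ ¬ G.Adj x.2.1 x.2.2.2.2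

/-- The theorem of Turan for a reflexive symmetric relation. -/
def TurS : Prop := ∀ (α : Type) [DecidableEq α] (R : α → α → Prop) [DecidableRel R] (k : ℕ)
  (U : Finset α), (∀ x, R x x) → (∀ x y, R x y → R y x) →
  (∀ Z ⊆ U, (∀ x ∈ Z, ∀ y ∈ Z, x ≠ y → ¬ R x y) → #Z ≤ k) →
  #U ^ 2 ≤ k * #((U ×ˢ U).filter fun z => R z.1 z.2)

/-- A heavy clique in a neighbourhood gives a copy. -/
def ClqS : Prop := ∀ (V : Type) [Fintype V] [DecidableEq V] (G : SimpleGraph V)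
  [DecidableRel G.Adj] (t : ℕ) (v : V) (Z : Finset V), (∀ x ∈ Z, G.Adj v x) →
  (∀ x ∈ Z, ∀ y ∈ Z, x ≠ y → 3 * t + 4 ≤ cod G x y) → t + 2 ≤ #Z → Has G t

/-- Many good walks. -/
def PathS : Prop := ∀ t K : ℕ, ∃ C D : ℕ, ∀ (V : Type) [Fintype V] [DecidableEq V]
  (G : SimpleGraph V) [DecidableRel G.Adj] (δ : ℕ), ¬ Has G t → C ≤ δ →
  (∀ v, δ ≤ G.degree v ∧ G.degree v ≤ K * δ) →
  Fintype.card V * δ ^ 4 ≤ D * #(P5 G (3 * t + 4))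

/-- Few triples `(c, p, r)` on fixed roots. -/
def PackS : Prop := ∀ t L : ℕ, ∃ B : ℕ, ∀ (V : Type) [Fintype V] [DecidableEq V]
  (G : SimpleGraph V) [DecidableRel G.Adj] (a b e w : V) (X : Finset (V × V × V)), ¬ Has G t →
  G.Adj a e → G.Adj b e → a ≠ b → w ≠ a → w ≠ b → w ≠ e →
  (∀ x ∈ X, G.Adj w x.1 ∧ G.Adj x.1 x.2.1 ∧ G.Adj x.1 x.2.2 ∧ G.Adj x.2.1 a ∧ G.Adj x.2.2 b ∧
    x.2.1 ≠ x.2.2 ∧ cod G x.1 a < L ∧ cod G x.1 b < L ∧ cod G w x.2.1 < L ∧ cod G w x.2.2 < L) →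
  #X ≤ B

/-- Pairs of good walks. -/
def PairS : Prop := ∀ t L : ℕ, ∃ B : ℕ, ∀ (V : Type) [Fintype V] [DecidableEq V]
  (G : SimpleGraph V) [DecidableRel G.Adj] (Δ : ℕ), ¬ Has G t → (∀ v, G.degree v ≤ Δ) →
  #(P5 G L) ^ 2 ≤ Fintype.card V ^ 2 * Δ * (2 * L * #(P5 G L) + B * (Fintype.card V ^ 2 * Δ ^ 2))

/-- The bound for almost regular graphs. -/
def CoreS : Prop := ∀ t K : ℕ, ∃ C : ℕ, ∀ (V : Type) [Fintype V] [DecidableEq V] [Nonempty V]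
  (G : SimpleGraph V) [DecidableRel G.Adj] (δ : ℕ), ¬ Has G t →
  (∀ v, δ ≤ G.degree v ∧ G.degree v ≤ K * δ) → δ ^ 5 ≤ C * Fintype.card V ^ 2

/-- The bound for all graphs. -/
def UpS : Prop := ∀ t : ℕ, ∃ C : ℕ, ∀ (V : Type) [Fintype V] [DecidableEq V]
  (G : SimpleGraph V) [DecidableRel G.Adj], ¬ Has G t → #G.edgeFinset ^ 5 ≤ C * Fintype.card V ^ 7

end Pool.Agent.MP_419040_co.Fan
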