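import Mathlib.FieldTheory.Finite.GaloisField
import Mathlib.Combinatorics.SimpleGraph.DegreeSum
import Pool.Agent.MP_419040_co.fan.Spec
import Pool.Agent.MP_419040_co.fan.Alg

/-! The explicit host graph. -/

namespace Pool.Agent.MP_419040_co.Fan

open Finset

section Host

variable {F : Type} [Field F] (σ : F →+* F) (γ : F)

/-- The vertices. -/
abbrev Vx : Type := F × F × {z : F // σ z = z}

/-- The trace of the cubic form. -/
def tr (x m : F) : F := γ * x * m * (x + m) + σ (γ * x * m * (x + m))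

/-- The host graph. -/
def host : SimpleGraph (Vx σ) where
  Adj u v := u ≠ v ∧ u.2.1 + v.2.1 = u.1 * v.1 ∧ u.2.2.1 + v.2.2.1 = tr σ γ u.1 v.1
  symm := ⟨fun u v h => ⟨h.1.symm, by rw [add_comm, h.2.1, mul_comm], by
    rw [add_comm, h.2.2, tr, tr, show γ * u.1 * v.1 * (u.1 + v.1) = γ * v.1 * u.1 * (v.1 + u.1) by
      ring]⟩⟩
  loopless := ⟨fun u h => h.1 rfl⟩

variable {σ γ}

theorem host_eq {u v w : Vx σ} (h : (host σ γ).Adj u w) (h' : (host σ γ).Adj v w) (e : u.1 = v.1) :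
    u = v := by
  refine Prod.ext e (Prod.ext ?_ (Subtype.ext ?_))
  · have := h.2.1
    rw [e, ← h'.2.1] at this
    exact add_right_cancel this
  · have := h.2.2
    rw [e, ← h'.2.2] at this
    exact add_right_cancel this

theorem host_lin {u v w w' : Vx σ} (h1 : (host σ γ).Adj u w) (h2 : (host σ γ).Adj v w)
    (h3 : (host σ γ).Adj u w') (h4 : (host σ γ).Adj v w') : u = v ∨ w = w' := by
  by_cases e : u.1 = v.1
  · exact Or.inl (host_eq h1 h2 e)
  · refine Or.inr (host_eq h1.symm h3.symm (mul_left_cancel₀ (sub_ne_zero.2 e) ?_))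
    linear_combination h2.2.1 - h1.2.1 + h3.2.1 - h4.2.1

/-- The first invariant of a pair of vertices. -/
def dl (a w : Vx σ) : F := a.1 * w.1 - w.2.1 - a.2.1

/-- The second invariant of a pair of vertices. -/
def kp (γ : F) (a w : Vx σ) : F :=
  tr σ γ a.1 w.1 - a.2.2.1 - w.2.2.1 - (2 * γ * dl a w * (w.1 + a.1) + σ (2 * γ * dl a w * (w.1 + a.1)))

theorem curve {a w c p : Vx σ} (h1 : (host σ γ).Adj w c) (h2 : (host σ γ).Adj c p)
    (h3 : (host σ γ).Adj a p) (n1 : c ≠ a) (n2 : p ≠ w) :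
    dl a w ≠ 0 ∧ σ (γ * dl a w) * (c.1 - a.1) * σ (c.1 - a.1) ^ 2 +
      (γ * dl a w ^ 2 + γ * dl a w * (c.1 - a.1) ^ 2 - kp γ a w * (c.1 - a.1)) * σ (c.1 - a.1) +
      σ (γ * dl a w ^ 2) * (c.1 - a.1) = 0 := by
  have e1 : dl a w = (c.1 - a.1) * (p.1 - w.1) := by
    rw [dl]
    linear_combination h2.2.1 - h1.2.1 - h3.2.1
  have e2 : kp γ a w = γ * dl a w * ((c.1 - a.1) + (p.1 - w.1)) +
      σ (γ * dl a w * ((c.1 - a.1) + (p.1 - w.1))) := by
    have k : γ * dl a w * ((c.1 - a.1) + (p.1 - w.1)) = γ * a.1 * w.1 * (a.1 + w.1) -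
        γ * w.1 * c.1 * (w.1 + c.1) + γ * c.1 * p.1 * (c.1 + p.1) - γ * a.1 * p.1 * (a.1 + p.1) -
        2 * γ * dl a w * (w.1 + a.1) := by rw [e1]; ring
    have q1 := h1.2.2
    have q2 := h2.2.2
    have q3 := h3.2.2
    rw [kp, k, map_sub, map_sub, map_add, map_sub]
    rw [tr] at q1 q2 q3 ⊢
    linear_combination q2 - q1 - q3
  refine ⟨?_, ?_⟩
  · rw [e1]
    exact mul_ne_zero (sub_ne_zero.2 fun e => n1 (host_eq h2 h3 e))
      (sub_ne_zero.2 fun e => n2 (host_eq h2.symm h1 e))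
  · rw [e2, e1]
    generalize c.1 - a.1 = u, p.1 - w.1 = s
    simp only [map_mul, map_add, map_pow]
    ring

theorem host_not (hγ : ∀ δ : F, δ ≠ 0 → γ ^ 2 * δ ^ 3 ≠ σ (γ ^ 2 * δ ^ 3)) {t : ℕ} (ht : 8 ≤ t) :
    ¬ Has (host σ γ) t := by
  classical
  rintro ⟨r, s, inj, -, -, h⟩
  have γ0 : γ ≠ 0 := fun k => hγ 1 one_ne_zero (by simp [k])
  have ne : ∀ (i : Fin 4) (j : Fin t × Fin 3), s j ≠ r i := fun i j k =>
    Sum.inr_ne_inl (inj (a₁ := Sum.inr j) (a₂ := Sum.inl i) k)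
  have ca := fun i => curve (h i).1 (h i).2.1 (h i).2.2.2.1 (ne _ _) (ne _ _)
  have cb := fun i => curve (h i).1 (h i).2.2.1 (h i).2.2.2.2 (ne _ _) (ne _ _)
  have da := (ca ⟨0, by omega⟩).1
  have db := (cb ⟨0, by omega⟩).1
  have ab : r 0 ≠ r 1 := fun k => absurd (inj (a₁ := Sum.inl 0) (a₂ := Sum.inl 1) k) (by simp)
  have s0 : ∀ x : F, x ≠ 0 → σ x ≠ 0 := fun x hx => (map_ne_zero σ).2 hx
  have key := alg (A := γ * dl (r 0) (r 3) ^ 2) (B := γ * dl (r 0) (r 3))
    (A' := σ (γ * dl (r 0) (r 3) ^ 2)) (B' := σ (γ * dl (r 0) (r 3))) (κ := kp γ (r 0) (r 3))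
    (E := γ * dl (r 1) (r 3) ^ 2) (D := γ * dl (r 1) (r 3))
    (E' := σ (γ * dl (r 1) (r 3) ^ 2)) (D' := σ (γ * dl (r 1) (r 3))) (μ := kp γ (r 1) (r 3))
    (h := (r 1).1 - (r 0).1) (h' := σ ((r 1).1 - (r 0).1))
    (by
      rw [← map_mul, show γ * dl (r 0) (r 3) ^ 2 * (γ * dl (r 0) (r 3)) =
        γ ^ 2 * dl (r 0) (r 3) ^ 3 by ring]
      exact hγ _ da)
    (by positivity) (s0 _ (by positivity)) (s0 _ (by positivity)) (s0 _ (by positivity))
    (fun k => by
      refine ⟨by rw [k, map_zero], ?_⟩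
      by_contra q
      rw [not_or, not_not, not_not, ← map_mul, ← map_mul] at q
      have e1 : dl (r 0) (r 3) = dl (r 1) (r 3) := by
        refine mul_left_cancel₀ (a := γ ^ 2 * dl (r 0) (r 3) * dl (r 1) (r 3)) (by positivity) ?_
        linear_combination -σ.injective q.1
      have e0 : (r 0).1 = (r 1).1 := (sub_eq_zero.1 k).symm
      have e2 : kp γ (r 1) (r 3) = kp γ (r 0) (r 3) := by
        refine mul_left_cancel₀ (s0 (γ * dl (r 0) (r 3)) (by positivity)) ?_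
        rw [q.2, e1, mul_comm]
      refine ab (Prod.ext e0 (Prod.ext ?_ (Subtype.ext ?_)))
      · rw [dl, dl, e0] at e1
        linear_combination -e1
      · rw [kp, kp, e1, e0] at e2
        linear_combination e2)
    (univ.image fun i : Fin t => (s (i, 0)).1 - (r 0).1)
    (fun u hu => by
      obtain ⟨i, -, rfl⟩ := mem_image.1 hu
      refine ⟨_, (ca i).2, ?_⟩
      rw [← map_sub, sub_sub_sub_cancel_right]
      exact (cb i).2)
  rw [card_image_of_injective, card_univ, Fintype.card_fin] at key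
  · omega
  · intro i j k
    have := host_eq (h i).1.symm (h j).1.symm (sub_left_injective k)
    simpa using inj (a₁ := Sum.inr (i, 0)) (a₂ := Sum.inr (j, 0)) this

theorem host_deg [Fintype F] [DecidableEq F] [DecidableRel (host σ γ).Adj] (hσ : ∀ x, σ (σ x) = x)
    (u : Vx σ) : Fintype.card F ≤ (host σ γ).degree u + 1 := by
  let f : F → Vx σ := fun m => (m, u.1 * m - u.2.1, ⟨tr σ γ u.1 m - u.2.2.1, by
    rw [map_sub, u.2.2.2, tr, map_add, hσ, add_comm]⟩)
  have : (univ.erase u.1).card ≤ (host σ γ).degree u := by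
    refine card_le_card_of_injOn f (fun m hm => ?_) fun m _ m' _ k => congrArg Prod.fst k
    rw [mem_coe, SimpleGraph.mem_neighborFinset]
    exact ⟨fun k => (mem_erase.1 hm).1 (congrArg Prod.fst k).symm, by simp [f], by simp [f]⟩
  rw [card_erase_of_mem (mem_univ _), card_univ] at this
  omega

end Host

theorem field (k : ℕ) : ∃ (F : Type) (_ : Field F) (_ : Fintype F) (σ : F →+* F) (γ : F),
    Fintype.card F = (2 ^ (2 * k + 1)) ^ 2 ∧ (∀ x, σ (σ x) = x) ∧
    Nat.card {z : F // σ z = z} = 2 ^ (2 * k + 1) ∧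
    ∀ δ : F, δ ≠ 0 → γ ^ 2 * δ ^ 3 ≠ σ (γ ^ 2 * δ ^ 3) := by
  classical
  obtain ⟨m, hm⟩ : ∃ m, m = 2 * k + 1 := ⟨_, rfl⟩
  have h3 : 3 ∣ 2 ^ m + 1 := by
    have := Odd.nat_add_dvd_pow_add_pow 2 1 (n := m) ⟨k, hm⟩
    simpa using this
  obtain ⟨j, hj⟩ := h3
  rw [← hm]
  let F := GaloisField 2 (m * 2)
  let _ : Fintype F := Fintype.ofFinite F
  have cF : Fintype.card F = (2 ^ m) ^ 2 := by
    rw [← Nat.card_eq_fintype_card, GaloisField.card 2 (m * 2) (by omega), pow_mul]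
  let σ : F →+* F := iterateFrobenius F 2 m
  have hσ : ∀ x, σ x = x ^ 2 ^ m := fun x => rfl
  have q2 : 2 ≤ 2 ^ m := Nat.le_self_pow (by omega) 2
  generalize 2 ^ m = q at *
  have σσ : ∀ x, σ (σ x) = x := fun x => by
    rw [hσ, hσ, ← pow_mul, ← sq, ← cF, FiniteField.pow_card]
  obtain ⟨g, hg⟩ := IsCyclic.exists_ofOrder_eq_natCard (α := Fˣ)
  rw [Nat.card_units, Nat.card_eq_fintype_card, cF] at hg
  obtain ⟨r, rfl⟩ : ∃ r, q = r + 1 := ⟨q - 1, by omega⟩
  have e : (r + 1) ^ 2 - 1 = 3 * (r * j) := by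
    have : (r + 1) ^ 2 = 3 * (r * j) + 1 := by
      calc _ = r * (r + 1 + 1) + 1 := by ring
        _ = _ := by rw [hj]; ring
    omega
  refine ⟨F, inferInstance, inferInstance, σ, g, cF, σσ, le_antisymm ?_ ?_, fun δ h0 h => ?_⟩
  · have p0 := FiniteField.X_pow_card_sub_X_ne_zero F (p := r + 1) (by omega)
    rw [Nat.card_eq_fintype_card, Fintype.card_subtype,
      ← FiniteField.X_pow_card_sub_X_natDegree_eq F (p := r + 1) (by omega)]
    refine le_trans (card_le_card fun z hz => ?_)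
      ((Multiset.toFinset_card_le _).trans (Polynomial.card_roots' _))
    rw [Multiset.mem_toFinset, Polynomial.mem_roots p0]
    simpa [hσ, sub_eq_zero] using hz
  · let T : F →+ F := σ.toAddMonoidHom - AddMonoidHom.id F
    have t1 : Nat.card T.ker ≤ Nat.card {z : F // σ z = z} :=
      Nat.card_le_card_of_injective (fun x => ⟨x.1, sub_eq_zero.1 x.2⟩)
        fun x y h => Subtype.ext (Subtype.mk.inj h)
    have t2 : Nat.card T.range ≤ Nat.card {z : F // σ z = z} :=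
      Nat.card_le_card_of_injective (fun x => ⟨x.1, by
        obtain ⟨_, y, rfl⟩ := x
        change σ (σ y - y) = σ y - y
        rw [map_sub, σσ, CharTwo.sub_eq_add, CharTwo.sub_eq_add, add_comm]⟩)
        fun x y h => Subtype.ext (Subtype.mk.inj h)
    have t3 := AddSubgroup.card_eq_card_quotient_mul_card_addSubgroup T.ker
    rw [Nat.card_congr (QuotientAddGroup.quotientKerEquivRange T).toEquiv,
      Nat.card_eq_fintype_card, cF] at t3
    refine (Nat.pow_le_pow_iff_left two_ne_zero).1 ?_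
    rw [t3, sq]
    exact Nat.mul_le_mul t2 t1
  · have x0 : (g : F) ^ 2 * δ ^ 3 ≠ 0 := mul_ne_zero (pow_ne_zero _ g.ne_zero) (pow_ne_zero _ h0)
    have x1 : ((g : F) ^ 2 * δ ^ 3) ^ r = 1 := by
      rw [hσ, pow_succ _ r] at h
      exact (mul_right_cancel₀ x0 (h.symm.trans (one_mul _).symm))
    have x2 : δ ^ (3 * (r * j)) = 1 := by
      rw [← e, ← cF]
      exact FiniteField.pow_card_sub_one_eq_one δ h0
    have x3 : g ^ (2 * (r * j)) = 1 := by
      refine Units.ext ?_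
      have : ((g : F) ^ 2 * δ ^ 3) ^ (r * j) = 1 := by rw [pow_mul, x1, one_pow]
      rw [mul_pow, ← pow_mul, ← pow_mul, x2, mul_one] at this
      simpa using this
    have x4 : 0 < r * j := Nat.mul_pos (by omega) (by omega)
    have := Nat.le_of_dvd (by omega) (orderOf_dvd_of_pow_eq_one x3)
    omega

theorem low (k : ℕ) : ∃ (V : Type) (_ : Fintype V) (G : SimpleGraph V),
    Fintype.card V = (2 ^ (2 * k + 1)) ^ 5 ∧
    (∀ u v w w', G.Adj u w → G.Adj v w → G.Adj u w' → G.Adj v w' → u = v ∨ w = w') ∧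
    (∀ t, 8 ≤ t → ¬ Has G t) ∧ (2 ^ (2 * k + 1)) ^ 7 ≤ 4 * G.edgeSet.ncard := by
  classical
  obtain ⟨F, _, _, σ, γ, h1, h2, h3, h4⟩ := field k
  have q2 : 2 ≤ 2 ^ (2 * k + 1) := Nat.le_self_pow (by omega) 2
  generalize 2 ^ (2 * k + 1) = q at *
  have c : Fintype.card (Vx σ) = q ^ 5 := by
    rw [Fintype.card_prod, Fintype.card_prod, h1, ← Nat.card_eq_fintype_card, h3]
    ring
  refine ⟨Vx σ, inferInstance, host σ γ, c, fun _ _ _ _ => host_lin, fun t => host_not h4, ?_⟩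
  have d : ∀ u ∈ (univ : Finset (Vx σ)), q ^ 2 ≤ 2 * (host σ γ).degree u := fun u _ => by
    have := host_deg (γ := γ) h2 u
    have : 2 ^ 2 ≤ q ^ 2 := Nat.pow_le_pow_left q2 2
    omega
  have := card_nsmul_le_sum _ _ _ d
  rw [← mul_sum, SimpleGraph.sum_degrees_eq_twice_card_edges, card_univ, c, smul_eq_mul] at this
  rw [← SimpleGraph.coe_edgeFinset, Set.ncard_coe_finset]
  calc _ = q ^ 5 * q ^ 2 := by ring
    _ ≤ _ := by omega

end Pool.Agent.MP_419040_co.Fan
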