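import Mathlib.Combinatorics.SimpleGraph.Extremal.Basic
import Mathlib.Combinatorics.SimpleGraph.Circulant
import Pool.Agent.MP_419040_co.fan.Low

/-! The almost regular case, the graphs `fan t` and the padded host. -/

namespace Pool.Agent.MP_419040_co.Fan

open Finset SimpleGraph

theorem core (hP : PathS) (hQ : PairS) : CoreS := by
  intro t K
  obtain ⟨C, D, h1⟩ := hP t K
  obtain ⟨B, h2⟩ := hQ t (3 * t + 4)
  refine ⟨C ^ 5 + 2 * B * K ^ 3 * D ^ 2 + (4 * (3 * t + 4) * K * D) ^ 2, fun V _ _ _ G _ δ hG hd => ?_⟩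
  have n0 : 0 < Fintype.card V := Fintype.card_pos
  have a := fun hC => h1 V G δ hG hC hd
  have b := h2 V G (K * δ) hG fun v => (hd v).2
  generalize Fintype.card V = n at *
  generalize #(P5 G (3 * t + 4)) = M at *
  generalize 3 * t + 4 = L at *
  rcases Nat.eq_zero_or_pos δ with rfl | d0
  · simp
  rw [add_mul, add_mul]
  rcases lt_or_ge δ C with hC | hC
  · have : δ ^ 5 ≤ C ^ 5 * n ^ 2 :=
      (Nat.pow_le_pow_left hC.le 5).trans (Nat.le_mul_of_pos_right _ (by positivity))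
    omega
  replace a := a hC
  rcases le_total (2 * L * M) (B * (n ^ 2 * (K * δ) ^ 2)) with c | c
  · have : δ ^ 5 ≤ 2 * B * K ^ 3 * D ^ 2 * n ^ 2 := by
      refine Nat.le_of_mul_le_mul_left (c := n ^ 2 * δ ^ 3) ?_ (by positivity)
      calc _ = (n * δ ^ 4) ^ 2 := by ring
        _ ≤ (D * M) ^ 2 := Nat.pow_le_pow_left a 2
        _ = D ^ 2 * M ^ 2 := by ring
        _ ≤ D ^ 2 * (n ^ 2 * (K * δ) * (2 * (B * (n ^ 2 * (K * δ) ^ 2)))) :=
          Nat.mul_le_mul_left _ (b.trans (Nat.mul_le_mul_left _ (by omega)))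
        _ = _ := by ring
    omega
  · have m : M ≤ 4 * L * K * n ^ 2 * δ := by
      rcases Nat.eq_zero_or_pos M with rfl | M0
      · simp
      refine Nat.le_of_mul_le_mul_left (c := M) ?_ M0
      calc _ = M ^ 2 := by ring
        _ ≤ n ^ 2 * (K * δ) * (2 * (2 * L * M)) := b.trans (Nat.mul_le_mul_left _ (by omega))
        _ = _ := by ring
    have e : δ ^ 3 ≤ 4 * L * K * D * n := by
      refine Nat.le_of_mul_le_mul_left (c := n * δ) ?_ (by positivity)
      calc _ = n * δ ^ 4 := by ring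
        _ ≤ D * (4 * L * K * n ^ 2 * δ) := a.trans (Nat.mul_le_mul_left _ m)
        _ = _ := by ring
    have : δ ^ 5 ≤ (4 * L * K * D) ^ 2 * n ^ 2 := by
      calc _ ≤ δ ^ 6 := Nat.pow_le_pow_right d0 (by norm_num)
        _ = (δ ^ 3) ^ 2 := by ring
        _ ≤ (4 * L * K * D * n) ^ 2 := Nat.pow_le_pow_left e 2
        _ = _ := by ring
    omega

theorem has_iff {V : Type} {G : SimpleGraph V} {t : ℕ} : Has G t ↔ (fan t).IsContained G := by
  constructor
  · rintro ⟨r, s, inj, h1, h2, h⟩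
    have k : ∀ x y, ((x = Sum.inl 0 ∧ y = Sum.inl 2) ∨ (x = Sum.inl 1 ∧ y = Sum.inl 2) ∨
        ∃ i, (x = Sum.inl 3 ∧ y = Sum.inr (i, 0)) ∨ (x = Sum.inr (i, 0) ∧ y = Sum.inr (i, 1)) ∨
        (x = Sum.inr (i, 0) ∧ y = Sum.inr (i, 2)) ∨ (x = Sum.inl 0 ∧ y = Sum.inr (i, 1)) ∨
        (x = Sum.inl 1 ∧ y = Sum.inr (i, 2))) → G.Adj (Sum.elim r s x) (Sum.elim r s y) := by
      rintro x y (⟨rfl, rfl⟩ | ⟨rfl, rfl⟩ | ⟨i, ⟨rfl, rfl⟩ | ⟨rfl, rfl⟩ | ⟨rfl, rfl⟩ | ⟨rfl, rfl⟩ |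
        ⟨rfl, rfl⟩⟩)
      exacts [h1, h2, (h i).1, (h i).2.1, (h i).2.2.1, (h i).2.2.2.1, (h i).2.2.2.2]
    exact ⟨⟨⟨Sum.elim r s, fun {x y} a => a.2.elim (k x y) fun b => (k y x b).symm⟩, inj⟩⟩
  · rintro ⟨f⟩
    refine ⟨fun i => f (Sum.inl i), fun j => f (Sum.inr j), ?_, ?_, ?_, fun i => ⟨?_, ?_, ?_, ?_, ?_⟩⟩
    · have : (Sum.elim (fun i => f (Sum.inl i)) fun j => f (Sum.inr j)) = f := by
        funext x
        cases x <;> rfl
      rw [this]
      exact f.injective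
    all_goals exact f.toHom.map_adj (by simp [fan])

/-- The identification of `fan 2` with the subdivided complete graph on four vertices. -/
def toK : Fin 4 ⊕ Fin 2 × Fin 3 → Fin 4 ⊕ {p : Fin 4 × Fin 4 // p.1 < p.2} :=
  Sum.elim ![.inl 0, .inl 1, .inr ⟨(0, 1), by decide⟩, .inr ⟨(2, 3), by decide⟩] fun x =>
    ![![.inl 2, .inr ⟨(0, 2), by decide⟩, .inr ⟨(1, 2), by decide⟩],
      ![.inl 3, .inr ⟨(0, 3), by decide⟩, .inr ⟨(1, 3), by decide⟩]] x.1 x.2

set_option synthInstance.maxSize 2000 in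
theorem fan_two : Nonempty (fan 2 ≃g subK4) :=
  ⟨⟨Equiv.ofBijective toK (by decide), fun {x y} => by
    simp only [fan, subK4, fromRel_adj, Equiv.ofBijective_apply]
    revert x y
    decide⟩⟩

theorem sub_fan {t : ℕ} (ht : 2 ≤ t) : subK4.IsContained (fan t) := by
  obtain ⟨e⟩ := fan_two
  refine IsContained.trans ⟨e.symm.toCopy⟩ (has_iff.1 ⟨Sum.inl,
    fun x => Sum.inr (x.1.castLE ht, x.2), ?_, ?_, ?_, fun i => ⟨?_, ?_, ?_, ?_, ?_⟩⟩)
  · rintro (x | x) (y | y) h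
    · exact congrArg _ (Sum.inl_injective h)
    · cases h
    · cases h
    · have := Prod.mk.inj (Sum.inr_injective h)
      exact congrArg _ (Prod.ext (Fin.castLE_injective ht this.1) this.2)
  all_goals simp [fan]

theorem free_map {α V W : Type} {H : SimpleGraph α} {G : SimpleGraph V} (j : V ↪ W)
    (hH : ∀ x, ∃ y, H.Adj x y) (h : H.Free G) : H.Free (G.map j) := by
  rintro ⟨f⟩
  have : ∀ x, ∃ v, j v = f x := fun x => by
    obtain ⟨y, hy⟩ := hH x
    obtain ⟨u, -, -, e, -⟩ := (map_adj j G _ _).1 (f.toHom.map_adj hy)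
    exact ⟨u, e⟩
  choose g hg using this
  refine h ⟨⟨⟨g, fun {x y} a => ?_⟩, fun x y e => f.injective ?_⟩⟩
  · have := f.toHom.map_adj a
    change (G.map j).Adj (f x) (f y) at this
    rwa [← hg, ← hg, map_adj_apply] at this
  · exact (hg x).symm.trans ((congrArg j e).trans (hg y))

theorem le_exPair {α β V : Type} [Fintype V] {H : SimpleGraph α} {H' : SimpleGraph β}
    {G : SimpleGraph V} {n : ℕ} (hn : Fintype.card V ≤ n) (hH : ∀ x, ∃ y, H.Adj x y)
    (hH' : ∀ x, ∃ y, H'.Adj x y) (h : H.Free G) (h' : H'.Free G) :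
    G.edgeSet.ncard ≤ exPair H H' n := by
  obtain ⟨j⟩ : Nonempty (V ↪ Fin n) := Function.Embedding.nonempty_of_card_le (by simpa using hn)
  refine le_csSup ⟨Nat.card (Sym2 (Fin n)), ?_⟩ ⟨G.map j, free_map j hH h, free_map j hH' h', ?_⟩
  · rintro _ ⟨F, -, -, rfl⟩
    exact Set.ncard_le_card _
  · rw [edgeSet_map, Set.ncard_image_of_injective _ j.sym2Map.injective]

theorem lower {t : ℕ} (ht : 8 ≤ t) {n : ℕ} (hn : 2 ≤ n) :
    n ^ 7 ≤ 2 ^ 80 * exPair (cycleGraph 4) (fan t) n ^ 5 := by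
  have c4 : ∀ x, ∃ y, (cycleGraph 4).Adj x y := by decide
  have ft : ∀ x, ∃ y, (fan t).Adj x y := by
    rintro (i | ⟨i, j⟩)
    · fin_cases i
      exacts [⟨.inl 2, by simp [fan]⟩, ⟨.inl 2, by simp [fan]⟩, ⟨.inl 0, by simp [fan]⟩,
        ⟨.inr (⟨0, by omega⟩, 0), by simp [fan]⟩]
    · fin_cases j
      exacts [⟨.inl 3, by simp [fan]⟩, ⟨.inl 0, by simp [fan]⟩, ⟨.inl 1, by simp [fan]⟩]
  rcases lt_or_ge n 32 with h | h
  · have a := le_exPair (G := (⊤ : SimpleGraph (Fin 2))) (n := n) (by simpa using hn) c4 ft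
      (fun ⟨f⟩ => by simpa using Fintype.card_le_of_injective f f.injective)
      (fun ⟨f⟩ => by
        have := Fintype.card_le_of_injective f f.injective
        simp only [Fintype.card_sum, Fintype.card_fin] at this
        omega)
    have b : 0 < (⊤ : SimpleGraph (Fin 2)).edgeSet.ncard :=
      (Set.ncard_pos (Set.toFinite _)).2 ⟨s(0, 1), by simp⟩
    calc _ ≤ 32 ^ 7 := Nat.pow_le_pow_left h.le 7
      _ ≤ 2 ^ 80 * 1 ^ 5 := by norm_num
      _ ≤ _ := Nat.mul_le_mul_left _ (Nat.pow_le_pow_left (b.trans_le a) 5)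
  · obtain ⟨k, k1, k2⟩ : ∃ k, (2 ^ (2 * k + 1)) ^ 5 ≤ n ∧ n ≤ (4 * 2 ^ (2 * k + 1)) ^ 5 := by
      have a := Nat.pow_log_le_self 1024 (x := n / 32) (by omega)
      have b := Nat.lt_pow_succ_log_self (b := 1024) (by norm_num) (n / 32)
      refine ⟨Nat.log 1024 (n / 32), ?_⟩
      generalize Nat.log 1024 (n / 32) = k at a b ⊢
      have e : (2 ^ (2 * k + 1)) ^ 5 = 32 * 1024 ^ k := by
        rw [show (1024 : ℕ) = 2 ^ 10 by norm_num, ← pow_mul, ← pow_mul]
        ring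
      rw [mul_pow, e]
      rw [pow_succ] at b
      omega
    obtain ⟨V, _, G, g1, g2, g3, g4⟩ := low k
    have a := le_exPair (G := G) (n := n) (g1 ▸ k1) c4 ft (fun ⟨f⟩ => by
      have e := g2 (f 0) (f 2) (f 1) (f 3) (f.toHom.map_adj (by decide))
        (f.toHom.map_adj (by decide)) (f.toHom.map_adj (by decide)) (f.toHom.map_adj (by decide))
      exact e.elim (fun e => absurd (f.injective e) (by decide))
        fun e => absurd (f.injective e) (by decide)) fun k => g3 t ht (has_iff.2 k)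
    generalize 2 ^ (2 * k + 1) = q at *
    calc _ ≤ ((4 * q) ^ 5) ^ 7 := Nat.pow_le_pow_left k2 7
      _ = 2 ^ 70 * (q ^ 7) ^ 5 := by ring
      _ ≤ 2 ^ 70 * (4 * exPair (cycleGraph 4) (fan t) n) ^ 5 :=
        Nat.mul_le_mul_left _ (Nat.pow_le_pow_left (by omega) 5)
      _ = _ := by ring

theorem upper (hU : UpS) (t : ℕ) : ∃ C : ℕ, ∀ n, extremalNumber n (fan t) ^ 5 ≤ C * n ^ 7 := by
  classical
  obtain ⟨C, h⟩ := hU t
  refine ⟨C, fun n => ?_⟩
  obtain ⟨G, _, hG⟩ := exists_isExtremal_free (V := Fin n) (H := fan t) (fun k => by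
    have : (fan t).Adj (.inl 0) (.inl 2) := by simp [fan]
    rw [k] at this
    exact this)
  have := h (Fin n) G fun k => hG.prop (has_iff.1 k)
  rwa [card_edgeFinset_of_isExtremal_free hG, Fintype.card_fin] at this

end Pool.Agent.MP_419040_co.Fan
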