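import Pool.Agent.MP_419040_co.fan.Spec

/-! Few triples on fixed roots: a greedy packing. -/

namespace Pool.Agent.MP_419040_co.Fan

open Finset

namespace PackL

variable {V : Type} [Fintype V] [DecidableEq V]

/-- common neighbours, if there are few of them -/
def cs (G : SimpleGraph V) [DecidableRel G.Adj] (L : ℕ) (u v : V) : Finset V :=
  if cod G u v < L then univ.filter fun z => G.Adj u z ∧ G.Adj v z else ∅

omit [DecidableEq V] in
theorem cs_le (G : SimpleGraph V) [DecidableRel G.Adj] (L : ℕ) (u v : V) : #(cs G L u v) ≤ L := by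
  unfold cs
  split_ifs with h
  · exact h.le
  · simp

omit [DecidableEq V] in
theorem mem_cs {G : SimpleGraph V} [DecidableRel G.Adj] {L : ℕ} {u v z : V} (h : cod G u v < L)
    (h1 : G.Adj u z) (h2 : G.Adj v z) : z ∈ cs G L u v := by
  unfold cs
  rw [if_pos h]
  exact mem_filter.2 ⟨mem_univ _, h1, h2⟩

omit [Fintype V] in
theorem two {L : ℕ} (Y : Finset (V × V × V)) (f g : V × V × V → V) (S : Finset V)
    (T : V → Finset V) (h : ∀ x ∈ Y, f x ∈ S ∧ g x ∈ T (f x))
    (hi : ∀ x ∈ Y, ∀ y ∈ Y, f x = f y → g x = g y → x = y) (hS : #S ≤ L) (hT : ∀ c, #(T c) ≤ L) :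
    #Y ≤ L * L := by
  refine (card_le_mul_card_image_of_maps_to (f := f) (fun x hx => (h x hx).1) L fun c _ => ?_).trans
    (Nat.mul_le_mul_left _ hS)
  refine le_trans (card_le_card_of_injOn g (fun x hx => ?_) fun x hx y hy e => ?_) (hT c)
  · obtain ⟨h1, h2⟩ := mem_filter.1 (mem_coe.1 hx)
    exact mem_coe.2 (h2 ▸ (h x h1).2)
  · obtain ⟨h1, h2⟩ := mem_filter.1 (mem_coe.1 hx)
    obtain ⟨h3, h4⟩ := mem_filter.1 (mem_coe.1 hy)
    exact hi x h1 y h3 (h2.trans h4.symm) e

/-- the three vertices of a triple -/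
def co (x : V × V × V) : Fin 3 → V := ![x.1, x.2.1, x.2.2]

omit [Fintype V] in
theorem greedy (X : Finset (V × V × V)) (r : Fin 4 → V) (D t : ℕ)
    (hD : ∀ v, #(X.filter fun x => ∃ j, co x j = v) ≤ D) (hX : D * (3 * t + 4) < #X) :
    ∀ m, m ≤ t → ∃ Y ⊆ X, #Y = m ∧ (∀ x ∈ Y, ∀ j k, r k ≠ co x j) ∧
      ∀ x ∈ Y, ∀ y ∈ Y, x ≠ y → ∀ j k, co x j ≠ co y k := by
  intro m
  induction m with
  | zero => exact fun _ => ⟨∅, empty_subset _, rfl, by simp, by simp⟩
  | succ m ih =>
    intro hm
    obtain ⟨Y, hY, hc, h1, h2⟩ := ih (by omega)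
    set U := univ.image r ∪ Y.biUnion fun y => univ.image (co y) with hU
    have hUc : #U ≤ 3 * t + 4 := by
      refine (card_union_le _ _).trans ?_
      have a1 : #(univ.image r) ≤ 4 := card_image_le.trans (by simp)
      have a2 : #(Y.biUnion fun y => univ.image (co y)) ≤ #Y * 3 :=
        card_biUnion_le_card_mul _ _ _ fun y _ => card_image_le.trans (by simp)
      omega
    have hB : #(U.biUnion fun v => X.filter fun x => ∃ j, co x j = v) < #X :=
      lt_of_le_of_lt ((card_biUnion_le_card_mul _ _ D fun v _ => hD v).trans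
        (by rw [mul_comm]; exact Nat.mul_le_mul_left _ hUc)) hX
    obtain ⟨x, hx, hn⟩ := exists_mem_notMem_of_card_lt_card hB
    have hx' : ∀ j, co x j ∉ U := fun j hj =>
      hn (mem_biUnion.2 ⟨_, hj, mem_filter.2 ⟨hx, j, rfl⟩⟩)
    have hy : ∀ y ∈ Y, ∀ k, co y k ∈ U := fun y hy k =>
      mem_union_right _ (mem_biUnion.2 ⟨y, hy, mem_image_of_mem _ (mem_univ k)⟩)
    have hxY : x ∉ Y := fun h => hx' 0 (hy x h 0)
    refine ⟨insert x Y, insert_subset hx hY, by rw [card_insert_of_notMem hxY, hc], ?_, ?_⟩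
    · intro z hz j k
      rcases mem_insert.1 hz with rfl | hz
      · exact fun e => hx' j (e ▸ mem_union_left _ (mem_image_of_mem _ (mem_univ k)))
      · exact h1 z hz j k
    · intro z hz y hy' hne j k
      rcases mem_insert.1 hz with g1 | g1 <;> rcases mem_insert.1 hy' with g2 | g2
      · exact absurd (g1.trans g2.symm) hne
      · exact fun e => hx' j (g1 ▸ e ▸ hy y g2 k)
      · exact fun e => hx' k (g2 ▸ e ▸ hy z g1 j)
      · exact h2 z g1 y g2 hne j k

end PackL

open PackL in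
theorem pack : PackS := by
  intro t L
  refine ⟨3 * (L * L) * (3 * t + 4), ?_⟩
  intro V _ _ G _ a b e w X hH hae hbe hab hwa hwb hwe hX
  by_contra hn
  have hD : ∀ v, #(X.filter fun x => ∃ j, co x j = v) ≤ 3 * (L * L) := by
    intro v
    have c1 : #(X.filter fun x => x.1 = v) ≤ L * L := by
      refine two _ (fun x => x.2.1) (fun x => x.2.2) (cs G L v a) (fun _ => cs G L v b)
        (fun x hx => ?_) (fun x hx y hy e1 e2 => ?_) (cs_le _ _ _ _) fun _ => cs_le _ _ _ _
      · obtain ⟨h1, rfl⟩ := mem_filter.1 hx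
        obtain ⟨-, a2, a3, a4, a5, -, a7, a8, -, -⟩ := hX x h1
        exact ⟨mem_cs a7 a2 a4.symm, mem_cs a8 a3 a5.symm⟩
      · exact Prod.ext ((mem_filter.1 hx).2.trans (mem_filter.1 hy).2.symm) (Prod.ext e1 e2)
    have c2 : #(X.filter fun x => x.2.1 = v) ≤ L * L := by
      refine two _ (fun x => x.1) (fun x => x.2.2) (cs G L w v) (fun c => cs G L c b)
        (fun x hx => ?_) (fun x hx y hy e1 e2 => ?_) (cs_le _ _ _ _) fun _ => cs_le _ _ _ _
      · obtain ⟨h1, rfl⟩ := mem_filter.1 hx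
        obtain ⟨a1, a2, a3, -, a5, -, -, a8, a9, -⟩ := hX x h1
        exact ⟨mem_cs a9 a1 a2.symm, mem_cs a8 a3 a5.symm⟩
      · exact Prod.ext e1 (Prod.ext ((mem_filter.1 hx).2.trans (mem_filter.1 hy).2.symm) e2)
    have c3 : #(X.filter fun x => x.2.2 = v) ≤ L * L := by
      refine two _ (fun x => x.1) (fun x => x.2.1) (cs G L w v) (fun c => cs G L c a)
        (fun x hx => ?_) (fun x hx y hy e1 e2 => ?_) (cs_le _ _ _ _) fun _ => cs_le _ _ _ _
      · obtain ⟨h1, rfl⟩ := mem_filter.1 hx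
        obtain ⟨a1, a2, a3, a4, -, -, a7, -, -, a10⟩ := hX x h1
        exact ⟨mem_cs a10 a1 a3.symm, mem_cs a7 a2 a4.symm⟩
      · exact Prod.ext e1 (Prod.ext e2 ((mem_filter.1 hx).2.trans (mem_filter.1 hy).2.symm))
    have hs : (X.filter fun x => ∃ j, co x j = v) ⊆ (X.filter fun x => x.1 = v) ∪
        ((X.filter fun x => x.2.1 = v) ∪ X.filter fun x => x.2.2 = v) := by
      intro x hx
      obtain ⟨h1, j, hj⟩ := mem_filter.1 hx
      simp only [mem_union, mem_filter, h1, true_and]
      fin_cases j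
      · exact Or.inl hj
      · exact Or.inr (Or.inl hj)
      · exact Or.inr (Or.inr hj)
    have := (card_le_card hs).trans ((card_union_le _ _).trans
      (Nat.add_le_add_left (card_union_le _ _) _))
    omega
  obtain ⟨Y, hY, hc, h1, h2⟩ := greedy X ![a, b, e, w] _ t hD (not_le.1 hn) t le_rfl
  let q : Fin t ≃ Y := (Y.equivFinOfCardEq hc).symm
  refine hH ⟨![a, b, e, w], fun z => co (q z.1).1 z.2, ?_, hae, hbe, fun i => ?_⟩
  · refine Function.Injective.sumElim ?_ ?_ fun k z => h1 _ (q z.1).2 z.2 k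
    · have n1 := hae.ne
      have n2 := hbe.ne
      intro i j hij
      fin_cases i <;> fin_cases j <;> simp_all
    · rintro ⟨i, j⟩ ⟨i', j'⟩ h
      have hi : i = i' := by
        by_contra hne
        exact h2 _ (q i).2 _ (q i').2 (fun g => hne (q.injective (Subtype.ext g))) j j' h
      subst hi
      obtain ⟨-, a2, a3, -, -, a6, -⟩ := hX _ (hY (q i).2)
      have n1 := a2.ne
      have n2 := a3.ne
      have : j = j' := by
        fin_cases j <;> fin_cases j' <;>
          first
          | rfl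
          | exact absurd h n1
          | exact absurd h n2
          | exact absurd h a6
          | exact absurd h n1.symm
          | exact absurd h n2.symm
          | exact absurd h a6.symm
      rw [this]
  · obtain ⟨a1, a2, a3, a4, a5, -⟩ := hX _ (hY (q i).2)
    exact ⟨a1, a2, a3, a4.symm, a5.symm⟩

end Pool.Agent.MP_419040_co.Fan
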