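import Pool.Agent.MP_419040_co.fan.Spec

/-! Pairs of good walks with the same first edge and the same end. -/

namespace Pool.Agent.MP_419040_co.Fan

open Finset

namespace PairL

/-- The inequality of Cauchy and Schwarz for the fibres of a map. -/
theorem cs {α β : Type} [DecidableEq α] [DecidableEq β] (P : Finset α) (T : Finset β) (f : α → β)
    (hf : ∀ x ∈ P, f x ∈ T) :
    #P ^ 2 ≤ #T * #((P ×ˢ P).filter fun z => f z.1 = f z.2) := by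
  have h1 : #P = ∑ k ∈ T, #(P.filter fun x => f x = k) := card_eq_sum_card_fiberwise hf
  have h2 : #((P ×ˢ P).filter fun z => f z.1 = f z.2) =
      ∑ k ∈ T, #(P.filter fun x => f x = k) ^ 2 := by
    rw [card_eq_sum_card_fiberwise (f := fun z : α × α => f z.1) (t := T)
      (fun z hz => hf _ (mem_product.1 (mem_filter.1 hz).1).1)]
    refine sum_congr rfl fun k _ => ?_
    rw [sq, ← card_product]
    congr 1
    ext z
    simp only [mem_filter, mem_product]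
    constructor
    · rintro ⟨⟨⟨a, b⟩, c⟩, d⟩
      exact ⟨⟨a, d⟩, b, c ▸ d⟩
    · rintro ⟨⟨a, d⟩, b, c⟩
      exact ⟨⟨⟨a, b⟩, d.trans c.symm⟩, d⟩
  rw [h2, h1]
  exact sq_sum_le_card_mul_sum_sq

variable {V : Type} [Fintype V] [DecidableEq V] (G : SimpleGraph V) [DecidableRel G.Adj]

/-- Ordered edges. -/
def E2 : Finset (V × V) := univ.filter fun z => G.Adj z.1 z.2

/-- Two neighbours of one vertex. -/
def E3 : Finset ((V × V) × V) := univ.filter fun z => G.Adj z.1.1 z.1.2 ∧ G.Adj z.1.1 z.2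

theorem card_E2 {Δ : ℕ} (h : ∀ v, G.degree v ≤ Δ) : #(E2 G) ≤ Δ * Fintype.card V := by
  refine card_le_mul_card_image_of_maps_to (f := Prod.fst) (t := univ) (fun _ _ => mem_univ _) Δ
    fun v _ => le_trans ?_ (h v)
  rw [← G.card_neighborFinset_eq_degree]
  refine card_le_card_of_injOn Prod.snd (fun z hz => ?_) (fun z hz z' hz' e => ?_)
  · have hz' := mem_filter.1 (mem_coe.1 hz)
    have h1 := (mem_filter.1 hz'.1).2
    rw [hz'.2] at h1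
    simpa using h1
  · exact Prod.ext ((mem_filter.1 (mem_coe.1 hz)).2.trans (mem_filter.1 (mem_coe.1 hz')).2.symm) e

theorem card_E3 {Δ : ℕ} (h : ∀ v, G.degree v ≤ Δ) : #(E3 G) ≤ Δ * (Δ * Fintype.card V) := by
  refine le_trans (card_le_mul_card_image_of_maps_to (f := Prod.fst) (t := E2 G)
    (fun z hz => mem_filter.2 ⟨mem_univ _, (mem_filter.1 hz).2.1⟩) Δ
    fun v _ => le_trans ?_ (h v.1)) (Nat.mul_le_mul_left _ (card_E2 G h))
  rw [← G.card_neighborFinset_eq_degree]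
  refine card_le_card_of_injOn Prod.snd (fun z hz => ?_) (fun z hz z' hz' e => ?_)
  · have hz' := mem_filter.1 (mem_coe.1 hz)
    have h1 := (mem_filter.1 hz'.1).2.2
    rw [hz'.2] at h1
    simpa using h1
  · exact Prod.ext ((mem_filter.1 (mem_coe.1 hz)).2.trans (mem_filter.1 (mem_coe.1 hz')).2.symm) e

/-- First edge and end of a walk. -/
def key (x : V × V × V × V × V) : (V × V) × V := ((x.1, x.2.1), x.2.2.2.2)

/-- Pairs with the same key. -/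
def Prs (L : ℕ) : Finset ((V × V × V × V × V) × (V × V × V × V × V)) :=
  (P5 G L ×ˢ P5 G L).filter fun z => key z.1 = key z.2

theorem mem_P5 {L : ℕ} {w c p a e : V} : (w, c, p, a, e) ∈ P5 G L ↔
    G.Adj w c ∧ G.Adj c p ∧ G.Adj p a ∧ G.Adj a e ∧ cod G w p < L ∧ cod G c a < L ∧
      cod G p e < L ∧ w ≠ a ∧ ¬ G.Adj c e := by
  simp [P5]

theorem mem_Prs {L : ℕ} {z : (V × V × V × V × V) × (V × V × V × V × V)} (hz : z ∈ Prs G L) :
    ∃ w c p a e q b, z = ((w, c, p, a, e), (w, c, q, b, e)) ∧ (w, c, p, a, e) ∈ P5 G L ∧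
      (w, c, q, b, e) ∈ P5 G L := by
  obtain ⟨⟨w, c, p, a, e⟩, w', c', q, b, e'⟩ := z
  obtain ⟨h1, h2⟩ := mem_filter.1 hz
  obtain ⟨h3, h4⟩ := mem_product.1 h1
  simp only [key, Prod.mk.injEq] at h2
  obtain ⟨⟨rfl, rfl⟩, rfl⟩ := h2
  exact ⟨w, c, p, a, e, q, b, rfl, h3, h4⟩

theorem cardA (L : ℕ) :
    #((Prs G L).filter fun z => z.1.2.2.1 = z.2.2.2.1) ≤ L * #(P5 G L) := by
  refine card_le_mul_card_image_of_maps_to (f := Prod.fst)
    (fun z hz => (mem_product.1 (mem_filter.1 (mem_filter.1 hz).1).1).1) L ?_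
  rintro ⟨w, c, p, a, e⟩ hx
  refine le_trans ?_ ((mem_P5 G).1 hx).2.2.2.2.2.2.1.le
  refine card_le_card_of_injOn (fun z => z.2.2.2.2.1) (fun z hz => ?_) (fun z hz z' hz' h => ?_)
  · obtain ⟨h1, h2⟩ := mem_filter.1 (mem_coe.1 hz)
    obtain ⟨h3, h4⟩ := mem_filter.1 h1
    obtain ⟨w', c', p', a', e', q, b, rfl, -, h6⟩ := mem_Prs G h3
    simp only [Prod.mk.injEq] at h2 h4
    obtain ⟨rfl, rfl, rfl, rfl, rfl⟩ := h2
    subst h4
    have h7 := (mem_P5 G).1 h6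
    exact mem_coe.2 (mem_filter.2 ⟨mem_univ _, h7.2.2.1, h7.2.2.2.1.symm⟩)
  · obtain ⟨h1, h2⟩ := mem_filter.1 (mem_coe.1 hz)
    obtain ⟨h3, h4⟩ := mem_filter.1 h1
    obtain ⟨w', c', p', a', e', q, b, rfl, -, -⟩ := mem_Prs G h3
    obtain ⟨k1, k2⟩ := mem_filter.1 (mem_coe.1 hz')
    obtain ⟨k3, k4⟩ := mem_filter.1 k1
    obtain ⟨w'', c'', p'', a'', e'', q', b', rfl, -, -⟩ := mem_Prs G k3
    simp only [Prod.mk.injEq] at h2 h4 k2 k4 h
    obtain ⟨rfl, rfl, rfl, rfl, rfl⟩ := h2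
    obtain ⟨rfl, rfl, rfl, rfl, rfl⟩ := k2
    subst h4 k4 h
    rfl

theorem cardB (L : ℕ) :
    #((Prs G L).filter fun z => z.1.2.2.2.1 = z.2.2.2.2.1) ≤ L * #(P5 G L) := by
  refine card_le_mul_card_image_of_maps_to (f := Prod.fst)
    (fun z hz => (mem_product.1 (mem_filter.1 (mem_filter.1 hz).1).1).1) L ?_
  rintro ⟨w, c, p, a, e⟩ hx
  refine le_trans ?_ ((mem_P5 G).1 hx).2.2.2.2.2.1.le
  refine card_le_card_of_injOn (fun z => z.2.2.2.1) (fun z hz => ?_) (fun z hz z' hz' h => ?_)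
  · obtain ⟨h1, h2⟩ := mem_filter.1 (mem_coe.1 hz)
    obtain ⟨h3, h4⟩ := mem_filter.1 h1
    obtain ⟨w', c', p', a', e', q, b, rfl, -, h6⟩ := mem_Prs G h3
    simp only [Prod.mk.injEq] at h2 h4
    obtain ⟨rfl, rfl, rfl, rfl, rfl⟩ := h2
    subst h4
    have h7 := (mem_P5 G).1 h6
    exact mem_coe.2 (mem_filter.2 ⟨mem_univ _, h7.2.1, h7.2.2.1.symm⟩)
  · obtain ⟨h1, h2⟩ := mem_filter.1 (mem_coe.1 hz)
    obtain ⟨h3, h4⟩ := mem_filter.1 h1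
    obtain ⟨w', c', p', a', e', q, b, rfl, -, -⟩ := mem_Prs G h3
    obtain ⟨k1, k2⟩ := mem_filter.1 (mem_coe.1 hz')
    obtain ⟨k3, k4⟩ := mem_filter.1 k1
    obtain ⟨w'', c'', p'', a'', e'', q', b', rfl, -, -⟩ := mem_Prs G k3
    simp only [Prod.mk.injEq] at h2 h4 k2 k4 h
    obtain ⟨rfl, rfl, rfl, rfl, rfl⟩ := h2
    obtain ⟨rfl, rfl, rfl, rfl, rfl⟩ := k2
    subst h4 k4 h
    rfl

theorem cardC (L B : ℕ) (hB : ∀ (a b e w : V) (X : Finset (V × V × V)),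
    G.Adj a e → G.Adj b e → a ≠ b → w ≠ a → w ≠ b → w ≠ e →
    (∀ x ∈ X, G.Adj w x.1 ∧ G.Adj x.1 x.2.1 ∧ G.Adj x.1 x.2.2 ∧ G.Adj x.2.1 a ∧ G.Adj x.2.2 b ∧
      x.2.1 ≠ x.2.2 ∧ cod G x.1 a < L ∧ cod G x.1 b < L ∧ cod G w x.2.1 < L ∧ cod G w x.2.2 < L) →
    #X ≤ B) :
    #((Prs G L).filter fun z => z.1.2.2.1 ≠ z.2.2.2.1 ∧ z.1.2.2.2.1 ≠ z.2.2.2.2.1) ≤
      B * #(E3 G ×ˢ (univ : Finset V)) := by
  refine card_le_mul_card_image_of_maps_to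
    (f := fun z => (((z.1.2.2.2.2, z.1.2.2.2.1), z.2.2.2.2.1), z.1.1)) (fun z hz => ?_) B ?_
  · obtain ⟨w, c, p, a, e, q, b, rfl, h5, h6⟩ := mem_Prs G (mem_filter.1 hz).1
    exact mem_product.2 ⟨mem_filter.2 ⟨mem_univ _, ((mem_P5 G).1 h5).2.2.2.1.symm,
      ((mem_P5 G).1 h6).2.2.2.1.symm⟩, mem_univ _⟩
  rintro ⟨⟨⟨e, a⟩, b⟩, w⟩ -
  set F := ((Prs G L).filter fun z => z.1.2.2.1 ≠ z.2.2.2.1 ∧ z.1.2.2.2.1 ≠ z.2.2.2.2.1).filter
    fun z => (((z.1.2.2.2.2, z.1.2.2.2.1), z.2.2.2.2.1), z.1.1) = (((e, a), b), w) with hF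
  have hm : ∀ z ∈ F, ∃ c p q, z = ((w, c, p, a, e), (w, c, q, b, e)) ∧ (w, c, p, a, e) ∈ P5 G L ∧
      (w, c, q, b, e) ∈ P5 G L ∧ p ≠ q ∧ a ≠ b := by
    intro z hz
    obtain ⟨h1, h2⟩ := mem_filter.1 hz
    obtain ⟨h3, h4⟩ := mem_filter.1 h1
    obtain ⟨w', c', p', a', e', q, b', rfl, h5, h6⟩ := mem_Prs G h3
    simp only [Prod.mk.injEq] at h2
    obtain ⟨⟨⟨rfl, rfl⟩, rfl⟩, rfl⟩ := h2
    exact ⟨c', p', q, rfl, h5, h6, h4.1, h4.2⟩
  rcases F.eq_empty_or_nonempty with h0 | ⟨z0, hz0⟩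
  · rw [h0]; exact Nat.zero_le _
  obtain ⟨c0, p0, q0, -, h5, h6, -, hab⟩ := hm z0 hz0
  rw [mem_P5] at h5 h6
  rw [← card_image_of_injOn (f := fun z => (z.1.2.1, z.1.2.2.1, z.2.2.2.1)) (s := F)]
  · refine hB a b e w _ h5.2.2.2.1 h6.2.2.2.1 hab h5.2.2.2.2.2.2.2.1 h6.2.2.2.2.2.2.2.1 ?_ ?_
    · rintro rfl
      exact h5.2.2.2.2.2.2.2.2 h5.1.symm
    · intro x hx
      obtain ⟨z, hz, rfl⟩ := mem_image.1 hx
      obtain ⟨c, p, q, rfl, k5, k6, hpq, -⟩ := hm z hz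
      rw [mem_P5] at k5 k6
      exact ⟨k5.1, k5.2.1, k6.2.1, k5.2.2.1, k6.2.2.1, hpq, k5.2.2.2.2.2.1, k6.2.2.2.2.2.1,
        k5.2.2.2.2.1, k6.2.2.2.2.1⟩
  · intro z hz z' hz' h
    obtain ⟨c, p, q, rfl, -⟩ := hm z hz
    obtain ⟨c', p', q', rfl, -⟩ := hm z' hz'
    simp only [Prod.mk.injEq] at h
    obtain ⟨rfl, rfl, rfl⟩ := h
    rfl

end PairL

open PairL in
theorem pair (hP : PackS) : PairS := by
  intro t L
  obtain ⟨B, hB⟩ := hP t L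
  refine ⟨B, fun V _ _ G _ Δ hH hΔ => ?_⟩
  have h1 := cs (P5 G L) (E2 G ×ˢ (univ : Finset V)) key (by
    rintro ⟨w, c, p, a, e⟩ hx
    exact mem_product.2 ⟨mem_filter.2 ⟨mem_univ _, ((mem_P5 G).1 hx).1⟩, mem_univ _⟩)
  have h2 : #(E2 G ×ˢ (univ : Finset V)) ≤ Fintype.card V ^ 2 * Δ := by
    rw [card_product, card_univ]
    calc _ ≤ Δ * Fintype.card V * Fintype.card V := Nat.mul_le_mul_right _ (card_E2 G hΔ)
      _ = _ := by ring
  have h3 : #(E3 G ×ˢ (univ : Finset V)) ≤ Fintype.card V ^ 2 * Δ ^ 2 := by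
    rw [card_product, card_univ]
    calc _ ≤ Δ * (Δ * Fintype.card V) * Fintype.card V := Nat.mul_le_mul_right _ (card_E3 G hΔ)
      _ = _ := by ring
  have h4 := cardC G L B fun a b e w X => hB V G a b e w X hH
  have h5 : #(Prs G L) ≤ #((Prs G L).filter fun z => z.1.2.2.1 = z.2.2.2.1) +
      #((Prs G L).filter fun z => z.1.2.2.2.1 = z.2.2.2.2.1) +
      #((Prs G L).filter fun z => z.1.2.2.1 ≠ z.2.2.2.1 ∧ z.1.2.2.2.1 ≠ z.2.2.2.2.1) := by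
    refine le_trans (card_le_card fun z hz => ?_)
      ((card_union_le _ _).trans (Nat.add_le_add_right (card_union_le _ _) _))
    simp only [mem_union, mem_filter]
    tauto
  have h6 := cardA G L
  have h7 := cardB G L
  have h8 := Nat.mul_le_mul_left B h3
  refine h1.trans (Nat.mul_le_mul h2 ?_)
  change #(Prs G L) ≤ _
  have h9 : 2 * L * #(P5 G L) = L * #(P5 G L) + L * #(P5 G L) := by ring
  omega

end Pool.Agent.MP_419040_co.Fan
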