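import Pool.Agent.MP_419040_co.fan.Spec

/-! Row Path: many good walks. -/

set_option linter.unusedSectionVars false

namespace Pool.Agent.MP_419040_co.Fan

open Finset

namespace PathL

variable {V : Type} [Fintype V] [DecidableEq V] (G : SimpleGraph V) [DecidableRel G.Adj]

theorem cod_comm (u v : V) : cod G u v = cod G v u := by
  unfold cod
  exact congrArg card (filter_congr fun z _ => and_comm)

/-- equal or of small codegree -/
def R (L : ℕ) (x y : V) : Prop := x = y ∨ cod G x y < L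

instance (L : ℕ) : DecidableRel (R G L) := fun x y => by unfold R; infer_instance

/-- the number of neighbours of `c` related to `p` -/
def lam (L : ℕ) (c p : V) : ℕ := #((G.neighborFinset c).filter fun w => R G L p w)

/-- the neighbours `c` of `p` with many neighbours related to `p` -/
def In (L k δ : ℕ) (p : V) : Finset V :=
  (G.neighborFinset p).filter fun c => δ ≤ 2 * k * lam G L c p

theorem tur (hT : TurS) (hC : ClqS) {t : ℕ} (h : ¬ Has G t) (v : V) (U : Finset V)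
    (hU : U ⊆ G.neighborFinset v) :
    #U ^ 2 ≤ (t + 1) * #((U ×ˢ U).filter fun z => R G (3 * t + 4) z.1 z.2) := by
  refine hT V (R G (3 * t + 4)) (t + 1) U (fun x => Or.inl rfl) (fun x y hxy => ?_) fun Z hZ hind => ?_
  · rcases hxy with e | e
    · exact Or.inl e.symm
    · exact Or.inr (cod_comm G x y ▸ e)
  · by_contra hc
    refine h (hC V G t v Z (fun x hx => by simpa using hU (hZ hx)) (fun x hx y hy ne => ?_) (by omega))
    by_contra hl
    exact hind x hx y hy ne (Or.inr (by omega))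

theorem good (hT : TurS) (hC : ClqS) {t δ : ℕ} (h : ¬ Has G t) (c : V) (hc : δ ≤ G.degree c) :
    δ ≤ 2 * #((G.neighborFinset c).filter fun p => δ ≤ 2 * (t + 1) * lam G (3 * t + 4) c p) := by
  set B := (G.neighborFinset c).filter fun p => ¬ δ ≤ 2 * (t + 1) * lam G (3 * t + 4) c p with hB
  have h1 := tur G hT hC h c B (filter_subset _ _)
  have h2 : #((B ×ˢ B).filter fun z => R G (3 * t + 4) z.1 z.2) ≤ ∑ p ∈ B, lam G (3 * t + 4) c p := by
    rw [card_filter, sum_product]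
    refine sum_le_sum fun p _ => ?_
    rw [← card_filter]
    exact card_le_card (filter_subset_filter _ (filter_subset _ _))
  have h3 : 2 * (t + 1) * ∑ p ∈ B, lam G (3 * t + 4) c p ≤ #B * δ := by
    rw [mul_sum]
    exact sum_le_card_nsmul _ _ _ fun p hp => (not_le.1 (mem_filter.1 hp).2).le
  have h4 : 2 * #B ≤ δ := by
    rcases Nat.eq_zero_or_pos #B with e | e
    · omega
    · refine Nat.le_of_mul_le_mul_left ?_ e
      nlinarith [Nat.mul_le_mul_left (t + 1) h2]
  have h5 := card_filter_add_card_filter_not (s := G.neighborFinset c)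
    fun p => δ ≤ 2 * (t + 1) * lam G (3 * t + 4) c p
  rw [G.card_neighborFinset_eq_degree, ← hB] at h5
  omega

theorem sum_In (L k δ : ℕ) : ∑ p, #(In G L k δ p) =
    ∑ c, #((G.neighborFinset c).filter fun p => δ ≤ 2 * k * lam G L c p) := by
  simp only [In, SimpleGraph.neighborFinset_eq_filter, filter_filter, card_filter]
  rw [sum_comm]
  refine sum_congr rfl fun c _ => sum_congr rfl fun p _ => ?_
  simp only [G.adj_comm p c]

/-- pairs of distinct members of `In p` with small codegree -/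
def Qs (L k δ : ℕ) (p : V) : Finset (V × V) :=
  (In G L k δ p ×ˢ In G L k δ p).filter fun z => z.1 ≠ z.2 ∧ cod G z.1 z.2 < L

theorem pair_le (L k δ : ℕ) (p : V) :
    #((In G L k δ p ×ˢ In G L k δ p).filter fun z => R G L z.1 z.2) ≤
      G.degree p + #(Qs G L k δ p) := by
  have h1 : ((In G L k δ p ×ˢ In G L k δ p).filter fun z => R G L z.1 z.2) ⊆
      (G.neighborFinset p).image (fun c => (c, c)) ∪ Qs G L k δ p := by
    rintro ⟨c, a⟩ hz
    obtain ⟨h1, h2⟩ := mem_filter.1 hz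
    by_cases e : c = a
    · subst e
      exact mem_union_left _ (mem_image.2 ⟨c, (mem_filter.1 (mem_product.1 h1).1).1, rfl⟩)
    · exact mem_union_right _ (mem_filter.2 ⟨h1, e, h2.resolve_left e⟩)
  refine (card_le_card h1).trans ((card_union_le _ _).trans (Nat.add_le_add_right ?_ _))
  exact card_image_le.trans (G.card_neighborFinset_eq_degree p).le

theorem manyQ (hT : TurS) (hC : ClqS) {t K δ : ℕ} (h : ¬ Has G t) (hδ : 8 * (t + 1) * K ≤ δ)
    (hd : ∀ v, δ ≤ G.degree v ∧ G.degree v ≤ K * δ) :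
    Fintype.card V * δ ^ 2 ≤ 8 * (t + 1) * ∑ p, #(Qs G (3 * t + 4) (t + 1) δ p) := by
  set n := Fintype.card V with hn
  set I := fun p => In G (3 * t + 4) (t + 1) δ p with hI
  set Q := ∑ p, #(Qs G (3 * t + 4) (t + 1) δ p) with hQ
  have h1 : n * δ ≤ 2 * ∑ p, #(I p) := by
    rw [hI, sum_In, mul_sum, hn, ← card_univ]
    exact card_nsmul_le_sum _ _ _ fun c _ => good G hT hC h c (hd c).1
  have h2 : (∑ p, #(I p)) ^ 2 ≤ n * ∑ p, #(I p) ^ 2 := by
    have := sq_sum_le_card_mul_sum_sq (s := (univ : Finset V)) (f := fun p => #(I p))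
    simpa using this
  have h3 : ∑ p, #(I p) ^ 2 ≤ (t + 1) * (n * (K * δ) + Q) := by
    calc ∑ p, #(I p) ^ 2 ≤ ∑ p, (t + 1) * (K * δ + #(Qs G (3 * t + 4) (t + 1) δ p)) :=
          sum_le_sum fun p _ => (tur G hT hC h p (I p) (filter_subset _ _)).trans
            (Nat.mul_le_mul_left _ ((pair_le G _ _ _ p).trans (Nat.add_le_add_right (hd p).2 _)))
      _ = _ := by rw [← mul_sum, sum_add_distrib, sum_const, card_univ, smul_eq_mul]
  rcases Nat.eq_zero_or_pos n with e | e
  · rw [e]; omega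
  have h4 : n * δ ^ 2 ≤ 4 * ((t + 1) * (n * (K * δ) + Q)) := by
    refine Nat.le_of_mul_le_mul_left ?_ e
    calc n * (n * δ ^ 2) = (n * δ) ^ 2 := by ring
      _ ≤ (2 * ∑ p, #(I p)) ^ 2 := Nat.pow_le_pow_left h1 2
      _ = 4 * (∑ p, #(I p)) ^ 2 := by ring
      _ ≤ 4 * (n * ((t + 1) * (n * (K * δ) + Q))) :=
          Nat.mul_le_mul_left _ (h2.trans (Nat.mul_le_mul_left _ h3))
      _ = _ := by ring
  have h5 : n * δ * (8 * (t + 1) * K) ≤ n * δ * δ := Nat.mul_le_mul_left _ hδ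
  nlinarith

/-- the choices of the first vertex -/
def Ws (L : ℕ) (c p a : V) : Finset V :=
  (G.neighborFinset c).filter fun w => R G L p w ∧ w ≠ p ∧ w ≠ a

/-- the choices of the last vertex -/
def Es (L : ℕ) (c p a : V) : Finset V :=
  (G.neighborFinset a).filter fun e => R G L p e ∧ e ≠ p ∧ ¬ G.Adj c e

theorem Ws_ge (L : ℕ) (c p a : V) : lam G L c p ≤ #(Ws G L c p a) + 2 := by
  have h1 : ((G.neighborFinset c).filter fun w => R G L p w) ⊆ Ws G L c p a ∪ {p, a} := by
    intro w hw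
    obtain ⟨h1, h2⟩ := mem_filter.1 hw
    simp only [Ws, mem_union, mem_filter, h1, h2, true_and, mem_insert, mem_singleton]
    tauto
  exact (card_le_card h1).trans ((card_union_le _ _).trans (Nat.add_le_add_left card_le_two _))

theorem Es_ge (L : ℕ) (c p a : V) : lam G L a p ≤ #(Es G L c p a) + (1 + cod G c a) := by
  have h1 : ((G.neighborFinset a).filter fun w => R G L p w) ⊆
      Es G L c p a ∪ ({p} ∪ univ.filter fun z => G.Adj c z ∧ G.Adj a z) := by
    intro w hw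
    obtain ⟨h1, h2⟩ := mem_filter.1 hw
    have h3 : G.Adj a w := by simpa using h1
    simp only [Es, mem_union, mem_filter, h1, h2, h3, true_and, and_true, mem_singleton, mem_univ]
    tauto
  exact (card_le_card h1).trans ((card_union_le _ _).trans
    (Nat.add_le_add_left ((card_union_le _ _).trans (by rw [card_singleton]; rfl)) _))

theorem ext_le (L k δ : ℕ) : ∑ p, ∑ z ∈ Qs G L k δ p,
    #(Ws G L z.1 p z.2) * #(Es G L z.1 p z.2) ≤ #(P5 G L) := by
  simp only [← card_product, ← card_sigma]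
  refine card_le_card_of_injOn
    (fun x : Σ _ : V, Σ _ : V × V, V × V => (x.2.2.1, x.2.1.1, x.1, x.2.1.2, x.2.2.2)) ?_ ?_
  · rintro ⟨p, ⟨c, a⟩, w, e⟩ hx
    simp only [coe_sigma, Set.mem_sigma_iff, mem_coe, mem_sigma, mem_product, Qs, In, Ws, Es,
      mem_filter, SimpleGraph.mem_neighborFinset] at hx
    obtain ⟨-, ⟨⟨⟨h1, -⟩, h2, -⟩, -, h3⟩, ⟨h4, h5, h6, h7⟩, h8, h9, h10, h11⟩ := hx
    refine mem_coe.2 (mem_filter.2 ⟨mem_univ _, h4.symm, h1.symm, h2, h8, ?_, h3, ?_, h7, h11⟩)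
    · exact cod_comm G p w ▸ h5.resolve_left h6.symm
    · exact h9.resolve_left h10.symm
  · rintro ⟨p, ⟨c, a⟩, w, e⟩ - ⟨p', ⟨c', a'⟩, w', e'⟩ - hx
    simp only [Prod.mk.injEq] at hx
    obtain ⟨rfl, rfl, rfl, rfl, rfl⟩ := hx
    rfl

end PathL

open PathL in
theorem path (hT : TurS) (hC : ClqS) : PathS := by
  intro t K
  refine ⟨8 * (t + 1) * K + 2 * (t + 1) * (2 * (3 * t + 4) + 4), 128 * (t + 1) ^ 3,
    fun V _ _ G _ δ h hδ hd => ?_⟩
  have h1 := manyQ G hT hC h (le_trans (Nat.le_add_right _ _) hδ) hd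
  have h0 : 2 * (t + 1) * (2 * (3 * t + 4) + 4) ≤ δ := le_trans (Nat.le_add_left _ _) hδ
  have key : ∀ l x : ℕ, δ ≤ 2 * (t + 1) * l → l ≤ x + (3 * t + 4) → δ ≤ 4 * (t + 1) * x := by
    intro l x e1 e2
    have e3 : 2 * (3 * t + 4) + 4 ≤ l := Nat.le_of_mul_le_mul_left (h0.trans e1) (by omega)
    calc δ ≤ 2 * (t + 1) * l := e1
      _ ≤ 2 * (t + 1) * (2 * x) := Nat.mul_le_mul_left _ (by omega)
      _ = _ := by ring
  have h2 : (∑ p, #(Qs G (3 * t + 4) (t + 1) δ p)) * δ ^ 2 ≤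
      16 * (t + 1) ^ 2 * #(P5 G (3 * t + 4)) := by
    refine le_trans ?_ (Nat.mul_le_mul_left _ (ext_le G (3 * t + 4) (t + 1) δ))
    rw [sum_mul, mul_sum]
    refine sum_le_sum fun p _ => ?_
    rw [mul_sum]
    refine card_nsmul_le_sum _ _ _ fun z hz => ?_
    obtain ⟨k1, -, k2⟩ := mem_filter.1 hz
    obtain ⟨k3, k4⟩ := mem_product.1 k1
    have a1 := key _ _ (mem_filter.1 k3).2 ((Ws_ge G _ z.1 p z.2).trans
      (Nat.add_le_add_left (by omega) _))
    have a2 := key _ _ (mem_filter.1 k4).2 ((Es_ge G _ z.1 p z.2).trans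
      (Nat.add_le_add_left (by omega) _))
    calc δ ^ 2 = δ * δ := sq δ
      _ ≤ _ := Nat.mul_le_mul a1 a2
      _ = _ := by ring
  calc Fintype.card V * δ ^ 4 = Fintype.card V * δ ^ 2 * δ ^ 2 := by ring
    _ ≤ 8 * (t + 1) * (∑ p, #(Qs G (3 * t + 4) (t + 1) δ p)) * δ ^ 2 := Nat.mul_le_mul_right _ h1
    _ = 8 * (t + 1) * ((∑ p, #(Qs G (3 * t + 4) (t + 1) δ p)) * δ ^ 2) := by ring
    _ ≤ 8 * (t + 1) * (16 * (t + 1) ^ 2 * #(P5 G (3 * t + 4))) := Nat.mul_le_mul_left _ h2
    _ = _ := by ring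

end Pool.Agent.MP_419040_co.Fan
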