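import Mathlib.Combinatorics.SimpleGraph.DegreeSum
import Pool.Agent.MP_419040_co.fan.Spec

/-! Reduction of the upper bound to almost regular graphs. -/

namespace Pool.Agent.MP_419040_co.Fan

open Finset

namespace RegL

variable {V : Type} [DecidableEq V]

lemma topk (f : V → ℕ) (S : Finset V) : ∀ k, k ≤ #S →
    ∃ T ⊆ S, #T = k ∧ ∀ v ∈ T, ∀ u ∈ S \ T, f u ≤ f v := by
  intro k
  induction k with
  | zero => intro _; exact ⟨∅, empty_subset _, rfl, by simp⟩
  | succ k ih =>
    intro hk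
    obtain ⟨T, hT, hc, h⟩ := ih (by omega)
    have hne : (S \ T).Nonempty := by
      rw [← card_pos, card_sdiff_of_subset hT]; omega
    obtain ⟨w, hw, hmax⟩ := exists_max_image (S \ T) f hne
    have hw' := mem_sdiff.1 hw
    refine ⟨insert w T, insert_subset hw'.1 hT, by rw [card_insert_of_notMem hw'.2, hc], ?_⟩
    intro v hv u hu
    have hu' : u ∈ S \ T := by
      rw [mem_sdiff] at hu ⊢
      exact ⟨hu.1, fun h' => hu.2 (mem_insert_of_mem h')⟩
    rcases mem_insert.1 hv with rfl | hv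
    · exact hmax u hu'
    · exact h v hv u hu'

lemma top (f : V → ℕ) (S : Finset V) (k : ℕ) (hk : k ≤ #S) :
    ∃ T ⊆ S, #T = k ∧ (∀ u ∈ S \ T, k * f u ≤ ∑ v ∈ T, f v) ∧
      k * ∑ v ∈ S, f v ≤ #S * ∑ v ∈ T, f v := by
  obtain ⟨T, hT, hc, h⟩ := topk f S k hk
  have h1 : ∀ u ∈ S \ T, k * f u ≤ ∑ v ∈ T, f v := fun u hu => by
    have := card_nsmul_le_sum T f (f u) fun v hv => h v hv u hu
    rwa [hc, smul_eq_mul] at this
  refine ⟨T, hT, hc, h1, ?_⟩
  have h2 : k * ∑ v ∈ S \ T, f v ≤ (#S - k) * ∑ v ∈ T, f v := by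
    rw [mul_sum]
    have := sum_le_card_nsmul (S \ T) (fun u => k * f u) _ h1
    rwa [card_sdiff_of_subset hT, hc, smul_eq_mul] at this
  rw [← sum_sdiff hT, mul_add]
  obtain ⟨m, hm⟩ := Nat.exists_eq_add_of_le hk
  rw [hm, Nat.add_sub_cancel_left] at h2
  rw [hm, add_mul]
  omega

variable (G : SimpleGraph V) [DecidableRel G.Adj]

/-- The number of neighbours of `v` in `S`. -/
def d (S : Finset V) (v : V) : ℕ := #(S.filter (G.Adj v))

/-- The degree sum of the graph induced on `S`. -/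
def E (S : Finset V) : ℕ := ∑ v ∈ S, d G S v

omit [DecidableEq V] in
lemma d_mono {S T : Finset V} (h : S ⊆ T) (v : V) : d G S v ≤ d G T v :=
  card_le_card (filter_subset_filter _ h)

omit [DecidableEq V] in
lemma swap (S T : Finset V) : ∑ v ∈ S, d G T v = ∑ v ∈ T, d G S v := by
  simp only [d, card_filter]
  rw [sum_comm]
  refine sum_congr rfl fun u _ => sum_congr rfl fun v _ => ?_
  simp only [G.adj_comm]

lemma split {S T : Finset V} (h : T ⊆ S) : E G S ≤ 2 * ∑ v ∈ T, d G S v + E G (S \ T) := by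
  have h1 : ∀ v, d G S v ≤ d G T v + d G (S \ T) v := fun v => by
    unfold d
    refine le_trans (card_le_card ?_) (card_union_le _ _)
    intro x hx
    simp only [mem_filter, mem_union, mem_sdiff] at hx ⊢
    tauto
  have h2 : ∑ v ∈ S \ T, d G S v ≤ ∑ v ∈ S \ T, d G T v + E G (S \ T) := by
    rw [E, ← sum_add_distrib]
    exact sum_le_sum fun v _ => h1 v
  have h3 : ∑ v ∈ S \ T, d G T v ≤ ∑ v ∈ T, d G S v := by
    rw [← swap G S T]
    exact sum_le_sum_of_subset sdiff_subset
  have h4 : E G S = ∑ v ∈ S \ T, d G S v + ∑ v ∈ T, d G S v := (sum_sdiff h).symm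
  omega

lemma core (δ : ℕ) (S : Finset V) : 2 * δ * #S < E G S →
    ∃ T ⊆ S, T.Nonempty ∧ ∀ v ∈ T, δ ≤ d G T v := by
  induction S using Finset.strongInduction with
  | H S ih =>
    intro h
    by_cases hall : ∀ v ∈ S, δ ≤ d G S v
    · refine ⟨S, Subset.rfl, ?_, hall⟩
      rcases S.eq_empty_or_nonempty with rfl | hne
      · simp [E] at h
      · exact hne
    · push Not at hall
      obtain ⟨v, hv, hd⟩ := hall
      have h1 := split G (singleton_subset_iff.2 hv)
      rw [sum_singleton, sdiff_singleton_eq_erase] at h1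
      have h2 : #S = #(S.erase v) + 1 := (card_erase_add_one hv).symm
      obtain ⟨T, hT, h3⟩ := ih (S.erase v) (erase_ssubset hv) (by rw [h2, mul_add] at h; omega)
      exact ⟨T, hT.trans (erase_subset _ _), h3⟩

omit [DecidableEq V] [DecidableRel G.Adj] in
lemma has_of_induce (S : Set V) {t : ℕ} (h : Has (G.induce S) t) : Has G t := by
  obtain ⟨r, s, hi, h1, h2, h3⟩ := h
  refine ⟨fun i => (r i).1, fun i => (s i).1, ?_, h1, h2, h3⟩
  have : (Sum.elim (fun i => (r i).1) fun i => (s i).1) = Subtype.val ∘ Sum.elim r s := by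
    funext x; cases x <;> rfl
  rw [this]
  exact Subtype.val_injective.comp hi

omit [DecidableEq V] in
lemma deg_induce (S : Finset V) (v : (S : Set V)) :
    (G.induce (S : Set V)).degree v = d G S v.1 := by
  rw [← SimpleGraph.card_neighborFinset_eq_degree, d]
  refine card_bij (fun x _ => x.1) ?_ ?_ ?_
  · intro x hx
    rw [SimpleGraph.mem_neighborFinset] at hx
    exact mem_filter.2 ⟨x.2, hx⟩
  · intro x _ y _ h
    exact Subtype.ext h
  · intro x hx
    rw [mem_filter] at hx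
    exact ⟨⟨x, hx.1⟩, by rw [SimpleGraph.mem_neighborFinset]; exact hx.2, rfl⟩

lemma main (C0 : ℕ)
    (hC : ∀ (S : Finset V) (δ : ℕ), S.Nonempty → (∀ v ∈ S, δ ≤ d G S v ∧ d G S v ≤ 8192 * δ) →
      δ ^ 5 ≤ C0 * #S ^ 2) (n : ℕ) :
    ∀ S : Finset V, #S = n → E G S ^ 5 ≤ (2048 ^ 3 + 8 ^ 5 * C0) * n ^ 7 := by
  induction n using Nat.strong_induction_on with
  | _ n ih =>
    intro S hS
    set C := 2048 ^ 3 + 8 ^ 5 * C0 with hCdef
    rcases lt_or_ge n 2048 with hn | hn
    · have h1 : E G S ≤ n ^ 2 := by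
        have := sum_le_card_nsmul S (d G S) n fun v _ => hS ▸ card_filter_le _ _
        rwa [hS, smul_eq_mul, ← sq] at this
      calc E G S ^ 5 ≤ (n ^ 2) ^ 5 := Nat.pow_le_pow_left h1 5
        _ = n ^ 3 * n ^ 7 := by ring
        _ ≤ C * n ^ 7 := Nat.mul_le_mul_right _
            ((Nat.pow_le_pow_left hn.le 3).trans (Nat.le_add_right _ _))
    · obtain ⟨k, hk⟩ : ∃ k, k = n / 2048 := ⟨_, rfl⟩
      have hk1 : 1 ≤ k := by omega
      have hk2 : 2048 * k ≤ n := by omega
      have hk3 : n ≤ 4096 * k := by omega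
      obtain ⟨T, hT, hc, h1, -⟩ := top (d G S) S k (by omega)
      rcases le_or_gt (E G S) (4 * ∑ v ∈ T, d G S v) with hE | hE
      · obtain ⟨T1, hT1, hc1, -, h2⟩ := top (d G T) S k (by omega)
        rw [swap G S T, hS] at h2
        have h3 : ∑ v ∈ T1, d G T v ≤ E G (T ∪ T1) :=
          (sum_le_sum fun v _ => d_mono G subset_union_left v).trans
            (sum_le_sum_of_subset subset_union_right)
        have h4 : ∑ v ∈ T, d G S v ≤ 4096 * E G (T ∪ T1) := by
          refine Nat.le_of_mul_le_mul_left (c := k) (h2.trans ?_) hk1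
          calc n * ∑ v ∈ T1, d G T v ≤ (4096 * k) * E G (T ∪ T1) := Nat.mul_le_mul hk3 h3
            _ = _ := by ring
        have h5 : #(T ∪ T1) ≤ 2 * k := (card_union_le _ _).trans (by omega)
        have h6 := ih _ (by omega) (T ∪ T1) rfl
        calc E G S ^ 5 ≤ (16384 * E G (T ∪ T1)) ^ 5 := Nat.pow_le_pow_left (by omega) 5
          _ = 16384 ^ 5 * E G (T ∪ T1) ^ 5 := mul_pow _ _ _
          _ ≤ 16384 ^ 5 * (C * (2 * k) ^ 7) := Nat.mul_le_mul_left _
              (h6.trans (Nat.mul_le_mul_left _ (Nat.pow_le_pow_left h5 7)))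
          _ = C * (2048 * k) ^ 7 := by ring
          _ ≤ C * n ^ 7 := Nat.mul_le_mul_left _ (Nat.pow_le_pow_left hk2 7)
      · have h2 := split G hT
        obtain ⟨δ, hδ⟩ : ∃ δ, δ = E G S / (4 * n) := ⟨_, rfl⟩
        have h3 : 4 * n * δ ≤ E G S := hδ ▸ Nat.mul_div_le _ _
        have h4 : E G S < 4 * n * (δ + 1) := hδ ▸ Nat.lt_mul_div_succ _ (by omega)
        rcases Nat.eq_zero_or_pos δ with rfl | hpos
        · calc E G S ^ 5 ≤ (4 * n) ^ 5 := Nat.pow_le_pow_left (by omega) 5
            _ = 4 ^ 5 * n ^ 5 := mul_pow _ _ _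
            _ ≤ C * n ^ 7 := Nat.mul_le_mul (le_trans (by norm_num) (Nat.le_add_right _ _))
                (Nat.pow_le_pow_right (by omega) (by norm_num))
        · have h5 : E G S ≤ 8 * n * δ := by nlinarith
          have h6 : #(S \ T) ≤ n := hS ▸ card_le_card sdiff_subset
          have h7 : 2 * δ * #(S \ T) ≤ 2 * δ * n := Nat.mul_le_mul_left _ h6
          obtain ⟨U, hU, hne, h8⟩ := core G δ (S \ T) (by nlinarith)
          have h9 := hC U δ hne fun v hv => ⟨h8 v hv, by
            have a1 := h1 v (hU hv)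
            have a2 : d G U v ≤ d G S v := d_mono G (hU.trans sdiff_subset) v
            have a3 : 8 * n * δ ≤ 8 * (4096 * k) * δ :=
              Nat.mul_le_mul_right _ (Nat.mul_le_mul_left _ hk3)
            refine a2.trans (Nat.le_of_mul_le_mul_left (c := k) ?_ hk1)
            nlinarith⟩
          have h10 : #U ≤ n := (card_le_card hU).trans h6
          calc E G S ^ 5 ≤ (8 * n * δ) ^ 5 := Nat.pow_le_pow_left h5 5
            _ = 8 ^ 5 * n ^ 5 * δ ^ 5 := by ring
            _ ≤ 8 ^ 5 * n ^ 5 * (C0 * n ^ 2) := Nat.mul_le_mul_left _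
                (h9.trans (Nat.mul_le_mul_left _ (Nat.pow_le_pow_left h10 2)))
            _ = 8 ^ 5 * C0 * n ^ 7 := by ring
            _ ≤ C * n ^ 7 := Nat.mul_le_mul_right _ (Nat.le_add_left _ _)

end RegL

theorem reg (hC : CoreS) : UpS := by
  intro t
  obtain ⟨C0, h0⟩ := hC t 8192
  refine ⟨2048 ^ 3 + 8 ^ 5 * C0, fun V _ _ G _ hG => ?_⟩
  have h1 := RegL.main G C0 (fun S δ hne h => by
    have : Nonempty (S : Set V) := hne.to_subtype
    have := h0 (S : Set V) (G.induce (S : Set V)) δ (fun h' => hG (RegL.has_of_induce G _ h'))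
      fun v => by rw [RegL.deg_induce]; exact h v.1 v.2
    simpa using this) _ univ card_univ
  have h2 : RegL.E G univ = 2 * #G.edgeFinset := by
    rw [← G.sum_degrees_eq_twice_card_edges, RegL.E]
    refine sum_congr rfl fun v _ => ?_
    rw [← SimpleGraph.card_neighborFinset_eq_degree, SimpleGraph.neighborFinset_eq_filter, RegL.d]
  exact (Nat.pow_le_pow_left (by omega) 5).trans h1

end Pool.Agent.MP_419040_co.Fan
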