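import Pool.Agent.MP_419040_co.fan.Spec

/-! The theorem of Turan for a relation, and the copy of `fan t` in a heavy clique. -/

namespace Pool.Agent.MP_419040_co.Fan

open Finset

namespace TurL

theorem card_pairs {α : Type} [DecidableEq α] (R : α → α → Prop) [DecidableRel R]
    (U : Finset α) :
    #((U ×ˢ U).filter fun z => R z.1 z.2) = ∑ y ∈ U, #(U.filter (R y)) := by
  rw [Finset.card_filter, Finset.sum_product]
  refine Finset.sum_congr rfl fun y _ => ?_
  rw [Finset.card_filter]

theorem arith (k u D P Q : ℕ) (h : u ^ 2 ≤ k * P) (hQ : P + D ^ 2 ≤ Q) :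
    (u + D) ^ 2 ≤ (k + 1) * Q := by
  have h1 : (2 * u * D) ^ 2 ≤ (P + k * D ^ 2) ^ 2 := by
    have h2 : (2 * u * D) ^ 2 = 4 * u ^ 2 * D ^ 2 := by ring
    have h3 : 4 * u ^ 2 * D ^ 2 ≤ 4 * (k * P) * D ^ 2 := by gcongr
    have h4 : 4 * (k * P) * D ^ 2 ≤ (P + k * D ^ 2) ^ 2 := by
      zify
      nlinarith [sq_nonneg ((P : ℤ) - k * D ^ 2)]
    omega
  have h5 : 2 * u * D ≤ P + k * D ^ 2 := (Nat.pow_le_pow_iff_left (by norm_num)).1 h1
  have h6 : (k + 1) * (P + D ^ 2) ≤ (k + 1) * Q := Nat.mul_le_mul_left _ hQ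
  nlinarith

/-- The first root of the pair with index `j`. -/
def lft {t : ℕ} : Unit ⊕ Fin t ⊕ Fin t → Bool ⊕ Fin t
  | .inl _ => .inl false
  | .inr (.inl _) => .inl false
  | .inr (.inr _) => .inl true

/-- The second root of the pair with index `j`. -/
def rgt {t : ℕ} : Unit ⊕ Fin t ⊕ Fin t → Bool ⊕ Fin t
  | .inl _ => .inl true
  | .inr (.inl i) => .inr i
  | .inr (.inr i) => .inr i

theorem lft_ne {t : ℕ} (j : Unit ⊕ Fin t ⊕ Fin t) : lft j ≠ rgt j := by
  rcases j with _ | _ | _ <;> simp [lft, rgt]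

/-- Names of the four roots. -/
def ph {t : ℕ} : Fin 4 → Option (Bool ⊕ Fin t) ⊕ (Unit ⊕ Fin t ⊕ Fin t)
  | 0 => .inl (some (.inl false))
  | 1 => .inl (some (.inl true))
  | 2 => .inr (.inl ())
  | 3 => .inl none

/-- Names of the other vertices. -/
def ps {t : ℕ} (i : Fin t) : Fin 3 → Option (Bool ⊕ Fin t) ⊕ (Unit ⊕ Fin t ⊕ Fin t)
  | 0 => .inl (some (.inr i))
  | 1 => .inr (.inr (.inl i))
  | 2 => .inr (.inr (.inr i))

theorem names_inj {t : ℕ} :
    Function.Injective (Sum.elim (ph (t := t)) fun x : Fin t × Fin 3 => ps x.1 x.2) := by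
  rintro (x | ⟨i, x⟩) (y | ⟨j, y⟩) h <;> fin_cases x <;> fin_cases y <;> simp_all [ph, ps]

end TurL

open TurL

theorem tur : TurS := by
  intro α _ R _ k U hr hs
  induction k generalizing U with
  | zero =>
    intro h
    rcases U.eq_empty_or_nonempty with rfl | ⟨x, hx⟩
    · simp
    · have := h {x} (by simpa using hx) (by simp)
      simp at this
  | succ k ih =>
    intro h
    rcases U.eq_empty_or_nonempty with rfl | hne
    · simp
    obtain ⟨x, hx, hmin⟩ := U.exists_min_image (fun y => #(U.filter (R y))) hne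
    have hsub : U.filter (fun y => ¬ R x y) ⊆ U := Finset.filter_subset _ _
    have h1 := ih (U.filter fun y => ¬ R x y) (by
      intro Z hZ hind
      have hxZ : x ∉ Z := fun hxz => (Finset.mem_filter.1 (hZ hxz)).2 (hr x)
      have := h (insert x Z) (Finset.insert_subset hx (hZ.trans hsub)) (by
        intro a ha b hb hab
        rcases Finset.mem_insert.1 ha with rfl | ha'
        · rcases Finset.mem_insert.1 hb with rfl | hb'
          · exact absurd rfl hab
          · exact (Finset.mem_filter.1 (hZ hb')).2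
        · rcases Finset.mem_insert.1 hb with rfl | hb'
          · exact fun hR => (Finset.mem_filter.1 (hZ ha')).2 (hs _ _ hR)
          · exact hind a ha' b hb' hab)
      rw [Finset.card_insert_of_notMem hxZ] at this
      omega)
    have hc : #U = #(U.filter fun y => ¬ R x y) + #(U.filter (R x)) := by
      rw [add_comm]
      exact (Finset.card_filter_add_card_filter_not (s := U) (R x)).symm
    rw [hc]
    refine arith k _ _ _ _ h1 ?_
    rw [card_pairs, card_pairs,
      ← Finset.sum_filter_not_add_sum_filter U (R x) fun y => #(U.filter (R y))]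
    refine add_le_add (Finset.sum_le_sum fun y _ => ?_) ?_
    · exact Finset.card_le_card (Finset.filter_subset_filter _ hsub)
    · rw [sq, ← smul_eq_mul]
      exact Finset.card_nsmul_le_sum _ _ _ fun y hy => hmin y (Finset.mem_filter.1 hy).1

theorem clq : ClqS := by
  intro V _ _ G _ t v Z hv hc hZ
  obtain ⟨z, hz⟩ := Function.Embedding.exists_of_card_le_finset (α := Bool ⊕ Fin t) (s := Z)
    (by simpa [add_comm] using hZ)
  have hzZ : ∀ i, z i ∈ Z := fun i => hz ⟨i, rfl⟩
  set F : Finset V := insert v (univ.image z) with hF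
  have hFc : #F ≤ t + 3 := by
    have h1 : #F ≤ #(univ.image z) + 1 := Finset.card_insert_le _ _
    have h2 : #(univ.image z) ≤ #(univ : Finset (Bool ⊕ Fin t)) := Finset.card_image_le
    have h3 : #(univ : Finset (Bool ⊕ Fin t)) = t + 2 := by simp [add_comm]
    omega
  let T : Unit ⊕ Fin t ⊕ Fin t → Finset V := fun j =>
    (univ.filter fun y => G.Adj (z (lft j)) y ∧ G.Adj (z (rgt j)) y) \ F
  have hT : ∀ j, 2 * t + 1 ≤ #(T j) := by
    intro j
    have h1 := hc _ (hzZ (lft j)) _ (hzZ (rgt j)) fun h => lft_ne j (z.injective h)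
    have h2 := Finset.le_card_sdiff F
      (univ.filter fun y => G.Adj (z (lft j)) y ∧ G.Adj (z (rgt j)) y)
    unfold cod at h1
    show 2 * t + 1 ≤ #((univ.filter fun y => G.Adj (z (lft j)) y ∧ G.Adj (z (rgt j)) y) \ F)
    omega
  obtain ⟨f, hf, hfT⟩ := (Finset.all_card_le_biUnion_card_iff_exists_injective T).1 (by
    intro s
    rcases s.eq_empty_or_nonempty with rfl | ⟨j, hj⟩
    · simp
    · have h1 : #s ≤ Fintype.card (Unit ⊕ Fin t ⊕ Fin t) := Finset.card_le_univ s
      have h2 : Fintype.card (Unit ⊕ Fin t ⊕ Fin t) = 2 * t + 1 := by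
        simp
        omega
      have h3 : #(T j) ≤ #(s.biUnion T) := Finset.card_le_card (Finset.subset_biUnion_of_mem T hj)
      have h4 := hT j
      omega)
  have hadj : ∀ j, G.Adj (z (lft j)) (f j) ∧ G.Adj (z (rgt j)) (f j) := fun j =>
    (Finset.mem_filter.1 (Finset.mem_sdiff.1 (hfT j)).1).2
  have hnF : ∀ j, f j ∉ F := fun j => (Finset.mem_sdiff.1 (hfT j)).2
  let o : Option (Bool ⊕ Fin t) → V := fun x => x.elim v z
  have hoF : ∀ x, o x ∈ F := by
    rintro (_ | x)
    · exact Finset.mem_insert_self _ _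
    · exact Finset.mem_insert_of_mem (Finset.mem_image_of_mem _ (Finset.mem_univ x))
  have ho : Function.Injective o := by
    rintro (_ | x) (_ | y) h
    · rfl
    · exact absurd h (hv _ (hzZ y)).ne
    · exact absurd h (hv _ (hzZ x)).ne'
    · exact congrArg some (z.injective h)
  have hg : Function.Injective (Sum.elim o f) :=
    ho.sumElim hf fun a b h => hnF b (h ▸ hoF a)
  refine ⟨fun x => Sum.elim o f (ph x), fun x => Sum.elim o f (ps x.1 x.2), ?_,
    (hadj (.inl ())).1, (hadj (.inl ())).2, fun i => ⟨hv _ (hzZ (.inr i)),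
      (hadj (.inr (.inl i))).2, (hadj (.inr (.inr i))).2, (hadj (.inr (.inl i))).1,
      (hadj (.inr (.inr i))).1⟩⟩
  intro a b h
  refine names_inj (hg ?_)
  rcases a with a | a <;> rcases b with b | b <;> exact h

end Pool.Agent.MP_419040_co.Fan
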